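import Pool.Agent.Run7.h111.Paley

set_option autoImplicit false

/-!
The asymptotic form of the main inequality.
-/

open Finset Filter

namespace Run7.h111

lemma poly_exp {δ C : ℝ} (hδ : δ < 0) : ∃ K : ℕ, ∀ k : ℕ, K ≤ k →
    C * ((k : ℝ) + 1) ^ 3 * Real.exp (δ * k) ≤ 1 := by
  have h1 := Real.tendsto_pow_mul_exp_neg_atTop_nhds_zero 3
  have h2 : Tendsto (fun k : ℕ => -δ * ((k : ℝ) + 1)) atTop atTop := by
    apply Tendsto.const_mul_atTop (by linarith)
    exact tendsto_atTop_add_const_right _ _ tendsto_natCast_atTop_atTop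
  have h3 := h1.comp h2
  have h4 := h3.const_mul (C * Real.exp (-δ) / (-δ) ^ 3)
  rw [mul_zero] at h4
  have h5 := h4.eventually_le_const (show (0 : ℝ) < 1 by norm_num)
  obtain ⟨K, hK⟩ := Filter.eventually_atTop.mp h5
  refine ⟨K, fun k hk => ?_⟩
  have h6 := hK k hk
  refine le_trans (le_of_eq ?_) h6
  simp only [Function.comp]
  have h7 : Real.exp (-(-δ * ((k : ℝ) + 1))) = Real.exp (δ * k) * Real.exp δ := by
    rw [← Real.exp_add]
    congr 1
    ring
  have h8 : Real.exp (-δ) * Real.exp δ = 1 := by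
    rw [← Real.exp_add]
    simp
  rw [h7, mul_pow]
  have h9 : (-δ) ^ 3 ≠ 0 := by
    have : 0 < -δ := by linarith
    positivity
  have h10 : (-δ) ^ 3 / (-δ) ^ 3 = 1 := div_self h9
  calc C * ((k : ℝ) + 1) ^ 3 * Real.exp (δ * k)
      = C * ((k : ℝ) + 1) ^ 3 * Real.exp (δ * k) * (Real.exp (-δ) * Real.exp δ)
          * ((-δ) ^ 3 / (-δ) ^ 3) := by rw [h8, h10]; ring
    _ = _ := by ring

/-- lower bound for the binomial coefficient `C(k, ⌊(k+1)x⌋)` -/
lemma choose_lower {x : ℝ} (hx0 : 0 < x) (hx1 : x < 1 / 2) {k : ℕ} (hk : 0 < k) :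
    Real.exp (k * (-Real.log (1 - x) + x * Real.log ((1 - x) / x)) - (1 - x) * Real.log ((1 - x) / x))
      ≤ ((k : ℝ) + 1) * (k.choose ⌊((k : ℝ) + 1) * x⌋₊ : ℝ) := by
  set ρ := ⌊((k : ℝ) + 1) * x⌋₊ with hρ
  have hkr : (1 : ℝ) ≤ k := by exact_mod_cast hk
  have h0 : (ρ : ℝ) ≤ ((k : ℝ) + 1) * x := Nat.floor_le (by positivity)
  have h1 : ((k : ℝ) + 1) * x < ρ + 1 := Nat.lt_floor_add_one _
  have hρk : ρ ≤ k := by
    have : (ρ : ℝ) ≤ k := by nlinarith
    exact_mod_cast this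
  have hy : 0 < 1 - x := by linarith
  have h := pow_le_max_term (x := x) (y := 1 - x) hx0 hy hρk (by nlinarith) (by nlinarith)
  have e : x + (1 - x) = 1 := by ring
  rw [e, one_pow] at h
  -- `x^ρ (1-x)^(k-ρ) = exp(...)`
  have h2 : x ^ ρ * (1 - x) ^ (k - ρ) = Real.exp (k * Real.log (1 - x) - ρ * Real.log ((1 - x) / x)) := by
    rw [Real.log_div hy.ne' hx0.ne']
    have e1 : (k : ℝ) * Real.log (1 - x) - ρ * (Real.log (1 - x) - Real.log x)
        = ρ * Real.log x + ((k - ρ : ℕ) : ℝ) * Real.log (1 - x) := by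
      rw [Nat.cast_sub hρk]
      ring
    rw [e1, Real.exp_add, Real.exp_nat_mul, Real.exp_nat_mul, Real.exp_log hx0, Real.exp_log hy]
  have hl : 0 < Real.log ((1 - x) / x) := by
    apply Real.log_pos
    rw [lt_div_iff₀ hx0]
    linarith
  have h3 : Real.exp (k * Real.log (1 - x) - ρ * Real.log ((1 - x) / x))
      ≤ Real.exp (k * Real.log (1 - x) - (((k : ℝ) + 1) * x - 1) * Real.log ((1 - x) / x)) := by
    apply Real.exp_le_exp.mpr
    nlinarith
  have h4 : 1 ≤ ((k : ℝ) + 1) * (k.choose ρ : ℝ)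
      * Real.exp (k * Real.log (1 - x) - (((k : ℝ) + 1) * x - 1) * Real.log ((1 - x) / x)) := by
    calc (1 : ℝ) ≤ ((k : ℝ) + 1) * ((k.choose ρ : ℝ) * x ^ ρ * (1 - x) ^ (k - ρ)) := h
      _ = ((k : ℝ) + 1) * (k.choose ρ : ℝ) * (x ^ ρ * (1 - x) ^ (k - ρ)) := by ring
      _ ≤ _ := by
          rw [h2]
          exact mul_le_mul_of_nonneg_left h3 (by positivity)
  have h5 : Real.exp (k * (-Real.log (1 - x) + x * Real.log ((1 - x) / x)) - (1 - x) * Real.log ((1 - x) / x))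
      * Real.exp (k * Real.log (1 - x) - (((k : ℝ) + 1) * x - 1) * Real.log ((1 - x) / x)) = 1 := by
    rw [← Real.exp_add]
    have e0 : (k * (-Real.log (1 - x) + x * Real.log ((1 - x) / x)) - (1 - x) * Real.log ((1 - x) / x))
        + (k * Real.log (1 - x) - (((k : ℝ) + 1) * x - 1) * Real.log ((1 - x) / x)) = 0 := by ring
    rw [e0, Real.exp_zero]
  have hpos := Real.exp_pos (k * Real.log (1 - x) - (((k : ℝ) + 1) * x - 1) * Real.log ((1 - x) / x))
  exact le_of_mul_le_mul_right (h5.le.trans h4) hpos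

/-- a Ramsey line: sets without cliques of size `m + 1` and independent sets of size `l + 1` have at
most `C exp (a m + b l)` elements -/
def RLine (C b a : ℝ) : Prop :=
  ∀ (V : Type) [DecidableEq V] (G : SimpleGraph V) (S : Finset V) (m l : ℕ),
    Pool.Agent.H111R2.KFree G S (m + 1) → Pool.Agent.H111R2.KFree Gᶜ S (l + 1) →
      (S.card : ℝ) ≤ C * Real.exp (a * m + b * l)

/-- the main inequality for the Paley graph -/
lemma paley_main {C b a : ℝ} (hR : RLine C b a) (hC : 0 ≤ C) (ha : 2 ≤ Real.exp a)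
    {p : ℕ} [Fact p.Prime] {h4 : p % 4 = 1} {A : Finset (ZMod p)} (hA : MaxCl h4 A)
    {ρ : ℕ} (hρ : ρ ≤ A.card) {Λ : ℝ}
    (hΛ : Λ = 2 * ρ - 2 * (ρ : ℝ) ^ 2 / A.card) {J : ℕ} (hJ : Λ ≤ J) (hJk : 2 * J ≤ A.card) :
    (p : ℝ) * (A.card.choose ρ : ℝ) ≤ 2 ^ A.card * (Λ + 1) * (3 * A.card * Real.sqrt p
      + J * (C * Real.exp (b * A.card)) * (Real.exp a - 1) ^ J * ((A.card : ℝ) + 1) * (A.card.choose ρ : ℝ)) := by
  classical
  set k := A.card with hk
  have hk0 : 0 < k := hA.pos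
  have hkr : (0 : ℝ) < k := by exact_mod_cast hk0
  have h := main_ineq (U := (Finset.univ : Finset (ZMod p))) (V := Finset.univ \ A)
    (Finset.sdiff_subset) (sv A) A (fun u _ => sv_subset A u) hA.sv_nonempty
    (by
      intro u hu
      apply sv_eq_empty_of_mem hA.cl
      simpa using hu)
    (sum_sg_bound hA.cl) (by positivity) (K := C * Real.exp (b * k)) (a := a) (by positivity)
    (by
      intro M hM
      obtain ⟨h1, h2⟩ := hA.kfree hM
      have := hR (ZMod p) (paley p h4) _ M.card k h1 h2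
      rw [mul_assoc, ← Real.exp_add]
      convert this using 3
      ring)
    ha hρ hk0 (η := 1) (Λ := Λ) (by norm_num) hΛ (J := J) (by linarith) hJk
  have hUV : (Finset.univ \ (Finset.univ \ A)) = A := by simp
  rw [hUV, card_univ, ZMod.card, card_powersetCard, ← hk, one_mul] at h
  set B : ℝ := (k.choose ρ : ℝ) with hB
  have hBpos : 0 < B := by
    rw [hB]
    exact_mod_cast Nat.choose_pos hρ
  have hs : (1 : ℝ) ≤ Real.sqrt p := by
    rw [Real.one_le_sqrt]
    exact_mod_cast (Fact.out : p.Prime).one_lt.le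
  have hΛ0 : 0 ≤ Λ := by
    have h1 : (ρ : ℝ) ≤ k := by exact_mod_cast hρ
    have h2 : (ρ : ℝ) ^ 2 / k ≤ ρ := by
      rw [div_le_iff₀ hkr]
      nlinarith [Nat.cast_nonneg (α := ℝ) ρ]
    rw [hΛ]
    have h3 : 2 * (ρ : ℝ) ^ 2 / k = 2 * ((ρ : ℝ) ^ 2 / k) := by ring
    rw [h3]
    linarith
  have h5 : ((p : ℝ) * B) * B ≤ (2 ^ k * (Λ + 1) * (3 * k * Real.sqrt p
      + J * (C * Real.exp (b * k)) * (Real.exp a - 1) ^ J * ((k : ℝ) + 1) * B)) * B := by
    have h6 : (2 : ℝ) ^ k * (Λ + 1) * (k * B) ≤ 2 ^ k * (Λ + 1) * (k * Real.sqrt p * B) := by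
      apply mul_le_mul_of_nonneg_left _ (by positivity)
      apply mul_le_mul_of_nonneg_right _ hBpos.le
      nlinarith
    have h7 : (p : ℝ) * B ^ 2 ≤ 2 * k * Real.sqrt p * (2 ^ k * (B * (Λ + 1)))
      + 2 ^ k * ((Λ + 1) * (k * B + J * (C * Real.exp (b * k) * (Real.exp a - 1) ^ J * ((k : ℝ) + 1) * B ^ 2))) := by
      linarith
    calc ((p : ℝ) * B) * B = (p : ℝ) * B ^ 2 := by ring
      _ ≤ _ := h7
      _ = 2 ^ k * (Λ + 1) * (2 * k * Real.sqrt p * B) + 2 ^ k * (Λ + 1) * (k * B)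
          + 2 ^ k * (Λ + 1) * (J * (C * Real.exp (b * k)) * (Real.exp a - 1) ^ J * ((k : ℝ) + 1) * B) * B := by ring
      _ ≤ 2 ^ k * (Λ + 1) * (2 * k * Real.sqrt p * B) + 2 ^ k * (Λ + 1) * (k * Real.sqrt p * B)
          + 2 ^ k * (Λ + 1) * (J * (C * Real.exp (b * k)) * (Real.exp a - 1) ^ J * ((k : ℝ) + 1) * B) * B := by
          linarith
      _ = _ := by ring
  exact le_of_mul_le_mul_right h5 hBpos

/-- **Asymptotic lower bound for the clique number of Paley graphs** -/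
theorem clique_lower {C b a : ℝ} (hR : RLine C b a) (hC : 0 ≤ C) (ha : 2 ≤ Real.exp a)
    {x t : ℝ} (hx0 : 0 < x) (hx1 : x < 1 / 9) (ht : 0 < t)
    (h1 : Real.log 2 < t / 2 + (-Real.log (1 - x) + x * Real.log ((1 - x) / x)))
    (h2 : Real.log 2 + b + 2 * x * (1 - x) * Real.log (Real.exp a - 1) < t) :
    ∃ P : ℕ, ∀ (p : ℕ) [Fact p.Prime] (h4 : p % 4 = 1), P ≤ p → ∀ A : Finset (ZMod p),
      MaxCl h4 A → Real.log p ≤ t * ((A.card : ℝ) - 1) := by
  set l := Real.log ((1 - x) / x) with hl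
  set h := -Real.log (1 - x) + x * l with hh
  set e := Real.log (Real.exp a - 1) with he
  have hE1 : 1 ≤ Real.exp a - 1 := by linarith
  have he0 : 0 ≤ e := Real.log_nonneg hE1
  obtain ⟨K1, hK1⟩ := poly_exp (δ := Real.log 2 - h - t / 2) (C := 9 * Real.exp (t / 2 + (1 - x) * l))
    (by linarith)
  obtain ⟨K2, hK2⟩ := poly_exp (δ := Real.log 2 + b + 2 * x * (1 - x) * e - t)
    (C := 3 * C * Real.exp ((2 * x * (1 - x) + 1) * e + t)) (by linarith)
  set K0 := max (max K1 K2) 10 with hK0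
  refine ⟨(3 * K0 * 2 ^ K0) ^ 2 + 1, ?_⟩
  intro p _ h4 hP A hA
  set k := A.card with hk
  have hk0 : 0 < k := hA.pos
  have hkr : (0 : ℝ) < k := by exact_mod_cast hk0
  have hp0 : (0 : ℝ) < p := by exact_mod_cast (Fact.out : p.Prime).pos
  set s := Real.sqrt p with hs
  have hs0 : 0 < s := Real.sqrt_pos.mpr hp0
  have hs1 : (1 : ℝ) ≤ s := by
    rw [hs, Real.one_le_sqrt]
    exact_mod_cast (Fact.out : p.Prime).one_lt.le
  have hss : s * s = p := Real.mul_self_sqrt hp0.le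
  -- `k` is large
  have hkK : K0 ≤ k := by
    by_contra hcon
    push Not at hcon
    have h5 := paley_main hR hC ha hA (ρ := 0) (Nat.zero_le _) (Λ := 0) (by simp) (J := 0) (by simp)
      (by omega)
    rw [Nat.choose_zero_right, ← hk, ← hs] at h5
    simp only [Nat.cast_one, mul_one, Nat.cast_zero, zero_mul, add_zero, zero_add] at h5
    have h6 : s ≤ 3 * k * 2 ^ k := by
      have : s * s ≤ (3 * k * 2 ^ k) * s := by
        rw [hss]
        calc (p : ℝ) ≤ 2 ^ k * (3 * k * s) := h5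
          _ = _ := by ring
      exact le_of_mul_le_mul_right this hs0
    have h7 : (3 * (k : ℝ) * 2 ^ k) ≤ 3 * K0 * 2 ^ K0 := by
      have e1 : (k : ℝ) ≤ K0 := by exact_mod_cast hcon.le
      have e2 : (2 : ℝ) ^ k ≤ 2 ^ K0 := pow_le_pow_right₀ (by norm_num) hcon.le
      have : (3 * (k : ℝ)) ≤ 3 * K0 := by linarith
      exact mul_le_mul this e2 (by positivity) (by positivity)
    have h8 : (p : ℝ) ≤ (3 * K0 * 2 ^ K0) ^ 2 := by
      rw [← hss, ← sq]
      exact pow_le_pow_left₀ hs0.le (h6.trans h7) 2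
    have h9 : ((3 * K0 * 2 ^ K0) ^ 2 + 1 : ℕ) ≤ (p : ℝ) := by exact_mod_cast hP
    push_cast at h9
    linarith
  have hk1 : K1 ≤ k := le_trans (le_trans (le_max_left _ _) (le_max_left _ _)) hkK
  have hk2 : K2 ≤ k := le_trans (le_trans (le_max_right _ _) (le_max_left _ _)) hkK
  have hk10 : 10 ≤ k := le_trans (le_max_right _ _) hkK
  have hk10r : (10 : ℝ) ≤ k := by exact_mod_cast hk10
  by_contra hcon
  push Not at hcon
  -- parameters
  set ρ := ⌊((k : ℝ) + 1) * x⌋₊ with hρ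
  have hρle : (ρ : ℝ) ≤ ((k : ℝ) + 1) * x := Nat.floor_le (by positivity)
  have hρk : ρ ≤ k := by
    have : (ρ : ℝ) ≤ k := by nlinarith
    exact_mod_cast this
  set Λ : ℝ := 2 * ρ - 2 * (ρ : ℝ) ^ 2 / k with hΛ
  have hΛle : Λ ≤ 2 * ((k : ℝ) + 1) * (x * (1 - x)) := by
    set r := ((k : ℝ) + 1) * x with hr
    have hr2 : r ≤ k / 2 := by rw [hr]; nlinarith
    have e1 : Λ ≤ 2 * r - 2 * r ^ 2 / k := by
      rw [hΛ]
      have e2 : (2 * r - 2 * r ^ 2 / k) - (2 * ρ - 2 * (ρ : ℝ) ^ 2 / k)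
          = 2 * (r - ρ) * (1 - (r + ρ) / k) := by
        field_simp
        ring
      have e3 : (r + ρ) / k ≤ 1 := by
        rw [div_le_one hkr]
        linarith
      have e4 : 0 ≤ 2 * (r - ρ) * (1 - (r + ρ) / k) := by
        apply mul_nonneg
        · linarith
        · linarith
      linarith
    have e5 : x ≤ r / k := by
      rw [le_div_iff₀ hkr, hr]
      nlinarith
    have e6 : 2 * r - 2 * r ^ 2 / k = 2 * r * (1 - r / k) := by
      field_simp
    rw [e6] at e1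
    refine e1.trans ?_
    have hr0 : 0 ≤ r := by positivity
    calc 2 * r * (1 - r / k) ≤ 2 * r * (1 - x) := by
          apply mul_le_mul_of_nonneg_left _ (by positivity)
          linarith
      _ = _ := by rw [hr]; ring
  have hΛ0 : 0 ≤ Λ := by
    have h1 : (ρ : ℝ) ≤ k := by exact_mod_cast hρk
    have h2 : (ρ : ℝ) ^ 2 / k ≤ ρ := by
      rw [div_le_iff₀ hkr]
      nlinarith [Nat.cast_nonneg (α := ℝ) ρ]
    have h3 : 2 * (ρ : ℝ) ^ 2 / k = 2 * ((ρ : ℝ) ^ 2 / k) := by ring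
    rw [hΛ, h3]
    linarith
  set J := ⌈Λ⌉₊ with hJ
  have hJ1 : Λ ≤ J := Nat.le_ceil _
  have hJ2 : (J : ℝ) ≤ Λ + 1 := (Nat.ceil_lt_add_one hΛ0).le
  have hxx : x * (1 - x) ≤ x := by nlinarith
  have hΛx : Λ ≤ 2 * ((k : ℝ) + 1) * x := by
    refine hΛle.trans ?_
    apply mul_le_mul_of_nonneg_left hxx (by positivity)
  have hJ3 : 2 * (J : ℝ) ≤ k := by nlinarith
  have hJk : 2 * J ≤ k := by exact_mod_cast hJ3
  have hmain := paley_main hR hC ha hA (ρ := ρ) hρk (Λ := Λ) hΛ (J := J) hJ1 hJk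
  rw [← hk, ← hs] at hmain
  set B : ℝ := (k.choose ρ : ℝ) with hB
  have hBpos : 0 < B := by
    rw [hB]
    exact_mod_cast Nat.choose_pos hρk
  have hBlow := choose_lower hx0 (by linarith) hk0
  rw [← hl, ← hh, ← hρ, ← hB] at hBlow
  have hΛk : Λ + 1 ≤ (k : ℝ) + 1 := by nlinarith
  have h2k : (2 : ℝ) ^ k = Real.exp (k * Real.log 2) := by
    rw [Real.exp_nat_mul, Real.exp_log (by norm_num)]
  -- lower bound for `p`
  have hpexp : Real.exp (t * ((k : ℝ) - 1)) < p := by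
    rw [← Real.exp_log hp0]
    exact Real.exp_lt_exp.mpr hcon
  have hsexp : Real.exp (t * ((k : ℝ) - 1) / 2) ≤ s := by
    rw [hs]
    apply Real.le_sqrt_of_sq_le
    rw [← Real.exp_nat_mul]
    refine le_trans (le_of_eq ?_) hpexp.le
    congr 1
    push_cast
    ring
  -- first claim
  have c1 : 2 ^ k * (Λ + 1) * (3 * k * s) ≤ (1 / 3) * (p * B) := by
    have d1 : 2 ^ k * (Λ + 1) * (9 * k) ≤ s * B := by
      have d2 := hK1 k hk1
      have hk1r : (0 : ℝ) < (k : ℝ) + 1 := by positivity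
      have d3 : 2 ^ k * (Λ + 1) * (9 * k) * ((k : ℝ) + 1) ≤ s * B * ((k : ℝ) + 1) := by
        have d4 : 2 ^ k * (Λ + 1) * (9 * k) * ((k : ℝ) + 1)
            ≤ 9 * ((k : ℝ) + 1) ^ 3 * Real.exp (k * Real.log 2) := by
          rw [h2k]
          have : (Λ + 1) * k * ((k : ℝ) + 1) ≤ ((k : ℝ) + 1) ^ 3 := by
            have e1 : (Λ + 1) * (k : ℝ) ≤ ((k : ℝ) + 1) * ((k : ℝ) + 1) := by
              apply mul_le_mul hΛk (by linarith) hkr.le hk1r.le
            calc (Λ + 1) * k * ((k : ℝ) + 1) ≤ ((k : ℝ) + 1) * ((k : ℝ) + 1) * ((k : ℝ) + 1) :=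
                  mul_le_mul_of_nonneg_right e1 hk1r.le
              _ = _ := by ring
          have hp := Real.exp_pos ((k : ℝ) * Real.log 2)
          nlinarith
        have d5 : Real.exp (t * ((k : ℝ) - 1) / 2) * Real.exp (k * h - (1 - x) * l)
            ≤ s * (((k : ℝ) + 1) * B) := mul_le_mul hsexp hBlow (Real.exp_pos _).le hs0.le
        have d6 : 9 * ((k : ℝ) + 1) ^ 3 * Real.exp (k * Real.log 2)
            ≤ Real.exp (t * ((k : ℝ) - 1) / 2) * Real.exp (k * h - (1 - x) * l) := by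
          have d7 : 9 * ((k : ℝ) + 1) ^ 3 * Real.exp (k * Real.log 2)
              = (9 * Real.exp (t / 2 + (1 - x) * l) * ((k : ℝ) + 1) ^ 3 * Real.exp ((Real.log 2 - h - t / 2) * k))
                * (Real.exp (t * ((k : ℝ) - 1) / 2) * Real.exp (k * h - (1 - x) * l)) := by
            have : Real.exp (k * Real.log 2) = Real.exp (t / 2 + (1 - x) * l)
                * Real.exp ((Real.log 2 - h - t / 2) * k)
                * (Real.exp (t * ((k : ℝ) - 1) / 2) * Real.exp (k * h - (1 - x) * l)) := by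
              rw [← Real.exp_add, ← Real.exp_add, ← Real.exp_add]
              congr 1
              ring
            rw [this]
            ring
          rw [d7]
          have d8 : 0 < Real.exp (t * ((k : ℝ) - 1) / 2) * Real.exp (k * h - (1 - x) * l) := by positivity
          nlinarith
        calc _ ≤ _ := d4
          _ ≤ _ := d6
          _ ≤ _ := d5
          _ = _ := by ring
      exact le_of_mul_le_mul_right d3 hk1r
    calc 2 ^ k * (Λ + 1) * (3 * k * s) = (1 / 3) * (2 ^ k * (Λ + 1) * (9 * k)) * s := by ring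
      _ ≤ (1 / 3) * (s * B) * s := by
          apply mul_le_mul_of_nonneg_right _ hs0.le
          linarith
      _ = (1 / 3) * ((s * s) * B) := by ring
      _ = _ := by rw [hss]
  -- second claim
  have c2 : 2 ^ k * (Λ + 1) * (J * (C * Real.exp (b * k)) * (Real.exp a - 1) ^ J * ((k : ℝ) + 1))
      ≤ (1 / 3) * p := by
    have hk1r : (0 : ℝ) < (k : ℝ) + 1 := by positivity
    have d1 : (Real.exp a - 1) ^ J ≤ Real.exp (((2 * ((k : ℝ) + 1) * (x * (1 - x))) + 1) * e) := by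
      have : (Real.exp a - 1) ^ J = Real.exp (J * e) := by
        rw [Real.exp_nat_mul, he, Real.exp_log (by linarith)]
      rw [this]
      apply Real.exp_le_exp.mpr
      apply mul_le_mul_of_nonneg_right _ he0
      linarith
    have d2 := hK2 k hk2
    have d3 : (Λ + 1) * J * ((k : ℝ) + 1) ≤ ((k : ℝ) + 1) ^ 3 := by
      have hJk' : (J : ℝ) ≤ (k : ℝ) + 1 := by linarith
      have e1 : (Λ + 1) * (J : ℝ) ≤ ((k : ℝ) + 1) * ((k : ℝ) + 1) :=
        mul_le_mul hΛk hJk' (by positivity) hk1r.le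
      calc (Λ + 1) * J * ((k : ℝ) + 1) ≤ ((k : ℝ) + 1) * ((k : ℝ) + 1) * ((k : ℝ) + 1) :=
            mul_le_mul_of_nonneg_right e1 hk1r.le
        _ = _ := by ring
    calc 2 ^ k * (Λ + 1) * (J * (C * Real.exp (b * k)) * (Real.exp a - 1) ^ J * ((k : ℝ) + 1))
        = ((Λ + 1) * J * ((k : ℝ) + 1)) * (2 ^ k * (C * Real.exp (b * k)) * (Real.exp a - 1) ^ J) := by ring
      _ ≤ ((k : ℝ) + 1) ^ 3 * (2 ^ k * (C * Real.exp (b * k))
            * Real.exp (((2 * ((k : ℝ) + 1) * (x * (1 - x))) + 1) * e)) := by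
          apply mul_le_mul d3 _ (by positivity) (by positivity)
          apply mul_le_mul_of_nonneg_left d1 (by positivity)
      _ = (1 / 3) * ((3 * C * Real.exp ((2 * x * (1 - x) + 1) * e + t) * ((k : ℝ) + 1) ^ 3
            * Real.exp ((Real.log 2 + b + 2 * x * (1 - x) * e - t) * k)) * Real.exp (t * ((k : ℝ) - 1))) := by
          rw [h2k]
          have : Real.exp (k * Real.log 2) * Real.exp (b * k)
                * Real.exp (((2 * ((k : ℝ) + 1) * (x * (1 - x))) + 1) * e)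
              = Real.exp ((2 * x * (1 - x) + 1) * e + t)
                * Real.exp ((Real.log 2 + b + 2 * x * (1 - x) * e - t) * k) * Real.exp (t * ((k : ℝ) - 1)) := by
            rw [← Real.exp_add, ← Real.exp_add, ← Real.exp_add, ← Real.exp_add]
            congr 1
            ring
          calc _ = ((k : ℝ) + 1) ^ 3 * C * (Real.exp (k * Real.log 2) * Real.exp (b * k)
                * Real.exp (((2 * ((k : ℝ) + 1) * (x * (1 - x))) + 1) * e)) := by ring
            _ = _ := by rw [this]; ring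
      _ ≤ (1 / 3) * (1 * Real.exp (t * ((k : ℝ) - 1))) := by
          apply mul_le_mul_of_nonneg_left _ (by norm_num)
          exact mul_le_mul_of_nonneg_right d2 (Real.exp_pos _).le
      _ ≤ _ := by linarith
  have c3 : (p : ℝ) * B ≤ (1 / 3) * (p * B) + (1 / 3) * (p * B) := by
    calc (p : ℝ) * B ≤ _ := hmain
      _ = 2 ^ k * (Λ + 1) * (3 * k * s) + (2 ^ k * (Λ + 1) * (J * (C * Real.exp (b * k))
          * (Real.exp a - 1) ^ J * ((k : ℝ) + 1))) * B := by ring
      _ ≤ (1 / 3) * (p * B) + ((1 / 3) * p) * B := by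
          apply add_le_add c1
          exact mul_le_mul_of_nonneg_right c2 hBpos.le
      _ = _ := by ring
  have c4 : 0 < (p : ℝ) * B := by positivity
  linarith

end Run7.h111
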