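import Pool.Agent.Run7.h111.Paley

set_option autoImplicit false

/-!
Lifting cliques of Paley graphs to admissible sets modulo prime powers.
-/

open Finset

namespace Run7.h111

/-- quadratic residues modulo `q` -/
def IsQR (q : ℕ) (r : ZMod q) : Prop := IsUnit r ∧ IsSquare r

/-- an integer which is a nonzero square modulo `p` is a quadratic residue modulo `p ^ n` -/
lemma isQR_pow {p n : ℕ} [hp : Fact p.Prime] (hp2 : p ≠ 2) (hn : 1 ≤ n) {z : ℤ}
    (hz : quadraticChar (ZMod p) (z : ZMod p) = 1) : IsQR (p ^ n) (z : ZMod (p ^ n)) := by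
  have hz0 : (z : ZMod p) ≠ 0 := by
    intro h
    rw [h] at hz
    simp at hz
  obtain ⟨x, hx⟩ := (quadraticChar_one_iff_isSquare hz0).mp hz
  have hunit : IsUnit (z : ZMod (p ^ n)) := by
    rw [ZMod.coe_int_isUnit_iff_isCoprime]
    have h1 : IsCoprime (p : ℤ) z := by
      rw [Prime.coprime_iff_not_dvd (Nat.prime_iff_prime_int.mp hp.out)]
      intro h
      exact hz0 ((ZMod.intCast_zmod_eq_zero_iff_dvd z p).mpr h)
    push_cast
    exact h1.pow_left
  refine ⟨hunit, ?_⟩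
  obtain ⟨k, rfl⟩ : ∃ k, n = k + 1 := ⟨n - 1, by omega⟩
  -- an integer square root modulo `p`
  set y : ℤ := (x.val : ℤ) with hy
  have hyx : ((y : ℤ) : ZMod p) = x := by
    rw [hy]
    simp
  have hdvd : (p : ℤ) ∣ y * y - z := by
    rw [← ZMod.intCast_zmod_eq_zero_iff_dvd]
    push_cast
    rw [hyx, hx]
    ring
  have h2 := dvd_sub_pow_of_dvd_sub (R := ℤ) (p := p) hdvd k
  have h3 : ((y * y : ℤ) ^ p ^ k : ZMod (p ^ (k + 1))) = (z : ZMod (p ^ (k + 1))) ^ p ^ k := by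
    have h4 : (((y * y) ^ p ^ k - z ^ p ^ k : ℤ) : ZMod (p ^ (k + 1))) = 0 := by
      rw [ZMod.intCast_zmod_eq_zero_iff_dvd]
      push_cast
      exact h2
    push_cast at h4 ⊢
    exact sub_eq_zero.mp h4
  have hodd : p ^ k % 2 = 1 := by
    have : p % 2 = 1 := by
      rcases hp.out.eq_two_or_odd with h | h
      · exact absurd h hp2
      · exact h
    rw [Nat.pow_mod, this, one_pow]
    norm_num
  obtain ⟨m, hm⟩ : ∃ m, p ^ k = 2 * m + 1 := ⟨p ^ k / 2, by omega⟩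
  obtain ⟨w, hw⟩ := hunit
  refine ⟨(y : ZMod (p ^ (k + 1))) ^ p ^ k * ((w⁻¹ : (ZMod (p ^ (k + 1)))ˣ) : ZMod (p ^ (k + 1))) ^ m, ?_⟩
  have h5 : (y : ZMod (p ^ (k + 1))) ^ p ^ k * (y : ZMod (p ^ (k + 1))) ^ p ^ k
      = (w : ZMod (p ^ (k + 1))) ^ (2 * m + 1) := by
    rw [← mul_pow, hw, ← hm, ← h3]
    push_cast
    ring
  have h6 : (w : ZMod (p ^ (k + 1))) * ((w⁻¹ : (ZMod (p ^ (k + 1)))ˣ) : ZMod (p ^ (k + 1))) = 1 :=
    Units.mul_inv w
  rw [← hw]
  calc (w : ZMod (p ^ (k + 1)))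
      = (w : ZMod (p ^ (k + 1))) * ((w : ZMod (p ^ (k + 1)))
          * ((w⁻¹ : (ZMod (p ^ (k + 1)))ˣ) : ZMod (p ^ (k + 1)))) ^ (2 * m) := by
        rw [h6, one_pow, mul_one]
    _ = (w : ZMod (p ^ (k + 1))) ^ (2 * m + 1)
          * ((w⁻¹ : (ZMod (p ^ (k + 1)))ˣ) : ZMod (p ^ (k + 1))) ^ (2 * m) := by
        rw [mul_pow]; ring
    _ = ((y : ZMod (p ^ (k + 1))) ^ p ^ k * (y : ZMod (p ^ (k + 1))) ^ p ^ k)
          * ((w⁻¹ : (ZMod (p ^ (k + 1)))ˣ) : ZMod (p ^ (k + 1))) ^ (2 * m) := by rw [h5]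
    _ = _ := by ring

/-- a clique of the Paley graph gives an admissible set modulo `p ^ n` -/
lemma exists_admissible {p n : ℕ} [hp : Fact p.Prime] (h4 : p % 4 = 1) (hn : 1 ≤ n)
    {A : Finset (ZMod p)} (hA : Cl h4 A) (hpos : 0 < A.card) :
    ∃ S : Finset (ZMod (p ^ n)), S.card = A.card - 1 ∧ (∀ r ∈ S, IsQR (p ^ n) r) ∧
      ∀ r ∈ S, ∀ r' ∈ S, r ≠ r' → IsQR (p ^ n) (r - r') := by
  classical
  have hp2 : p ≠ 2 := by
    rintro rfl
    omega
  have hppos : 0 < p := hp.out.pos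
  obtain ⟨a0, ha0⟩ := Finset.card_pos.mp hpos
  set φ : ZMod p → ZMod (p ^ n) := fun r => (((r - a0).val : ℤ) : ZMod (p ^ n)) with hφ
  have hple : p ≤ p ^ n := Nat.le_self_pow (by omega) p
  have hinj : Function.Injective φ := by
    intro r r' h
    have h1 : (((r - a0).val : ℤ) : ZMod (p ^ n)) = (((r' - a0).val : ℤ) : ZMod (p ^ n)) := h
    have h2 : (((r - a0).val : ℕ) : ZMod (p ^ n)) = (((r' - a0).val : ℕ) : ZMod (p ^ n)) := by
      exact_mod_cast h1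
    rw [ZMod.natCast_eq_natCast_iff'] at h2
    rw [Nat.mod_eq_of_lt (lt_of_lt_of_le (ZMod.val_lt _) hple),
      Nat.mod_eq_of_lt (lt_of_lt_of_le (ZMod.val_lt _) hple)] at h2
    have h3 := ZMod.val_injective p h2
    exact sub_left_injective h3
  refine ⟨(A.erase a0).image φ, ?_, ?_, ?_⟩
  · rw [Finset.card_image_of_injective _ hinj, Finset.card_erase_of_mem ha0]
  · intro r hr
    rw [mem_image] at hr
    obtain ⟨a, ha, rfl⟩ := hr
    rw [mem_erase] at ha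
    have h1 := hA a ha.2 a0 ha0 ha.1
    rw [paley_adj] at h1
    apply isQR_pow hp2 hn
    simpa using h1
  · intro r hr r' hr' hne
    rw [mem_image] at hr hr'
    obtain ⟨a, ha, rfl⟩ := hr
    obtain ⟨b, hb, rfl⟩ := hr'
    rw [mem_erase] at ha hb
    have hab : a ≠ b := fun h => hne (by rw [h])
    have h1 := hA a ha.2 b hb.2 hab
    rw [paley_adj] at h1
    have h2 : φ a - φ b = ((((a - a0).val : ℤ) - ((b - a0).val : ℤ) : ℤ) : ZMod (p ^ n)) := by
      rw [hφ]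
      push_cast
      ring
    rw [h2]
    apply isQR_pow hp2 hn
    have h3 : ((((a - a0).val : ℤ) - ((b - a0).val : ℤ) : ℤ) : ZMod p) = a - b := by
      push_cast
      simp
    rw [h3]
    exact h1

end Run7.h111
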