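import Pool.Agent.Run7.h111.Binom

set_option autoImplicit false

/-!
From bounds for the sets `{u | s u ⊆ M}` to bounds for the levels `{u | |s u| = j}`.
-/

open Finset

namespace Run7.h111

variable {α β : Type*} [DecidableEq α]

lemma sum_superset {A S : Finset α} (hS : S ⊆ A) (q : ℝ) :
    ∑ M ∈ A.powerset, (if S ⊆ M then q ^ M.card * (1 - q) ^ (A.card - M.card) else 0)
      = q ^ S.card := by
  classical
  have h1 : ∏ a ∈ A, (q + (if a ∈ S then (0 : ℝ) else 1 - q))
      = ∑ M ∈ A.powerset, (∏ _a ∈ M, q) * ∏ a ∈ A \ M, (if a ∈ S then (0 : ℝ) else 1 - q) :=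
    Finset.prod_add _ _ _
  have h2 : ∏ a ∈ A, (q + (if a ∈ S then (0 : ℝ) else 1 - q)) = q ^ S.card := by
    have : ∀ a ∈ A, (q + (if a ∈ S then (0 : ℝ) else 1 - q)) = if a ∈ S then q else 1 := by
      intro a _
      split_ifs <;> ring
    rw [Finset.prod_congr rfl this, Finset.prod_ite_mem, Finset.inter_eq_right.mpr hS,
      Finset.prod_const]
  rw [← h2, h1]
  apply Finset.sum_congr rfl
  intro M hM
  rw [mem_powerset] at hM
  rw [Finset.prod_const]
  split_ifs with h
  · congr 1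
    have : ∀ a ∈ A \ M, (if a ∈ S then (0 : ℝ) else 1 - q) = 1 - q := by
      intro a ha
      rw [mem_sdiff] at ha
      rw [if_neg]
      intro h3
      exact ha.2 (h h3)
    rw [Finset.prod_congr rfl this, Finset.prod_const, card_sdiff_of_subset hM]
  · rw [Finset.not_subset] at h
    obtain ⟨a, ha1, ha2⟩ := h
    have : ∏ a ∈ A \ M, (if a ∈ S then (0 : ℝ) else 1 - q) = 0 := by
      apply Finset.prod_eq_zero (i := a)
      · rw [mem_sdiff]
        exact ⟨hS ha1, ha2⟩
      · simp [ha1]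
    rw [this, mul_zero]

lemma avg_bound {V : Finset β} (s : β → Finset α) (A : Finset α) (hs : ∀ u ∈ V, s u ⊆ A)
    {K a : ℝ} (hK : ∀ M ⊆ A, ((V.filter (fun u => s u ⊆ M)).card : ℝ) ≤ K * Real.exp (a * M.card))
    {q : ℝ} (hq0 : 0 ≤ q) (hq1 : q ≤ 1) :
    ∑ u ∈ V, q ^ (s u).card ≤ K * (1 + q * (Real.exp a - 1)) ^ A.card := by
  classical
  have h1 : ∑ u ∈ V, q ^ (s u).card
      = ∑ M ∈ A.powerset, q ^ M.card * (1 - q) ^ (A.card - M.card)
          * ((V.filter (fun u => s u ⊆ M)).card : ℝ) := by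
    calc ∑ u ∈ V, q ^ (s u).card
        = ∑ u ∈ V, ∑ M ∈ A.powerset,
            (if s u ⊆ M then q ^ M.card * (1 - q) ^ (A.card - M.card) else 0) :=
          Finset.sum_congr rfl (fun u hu => (sum_superset (hs u hu) q).symm)
      _ = ∑ M ∈ A.powerset, ∑ u ∈ V,
            (if s u ⊆ M then q ^ M.card * (1 - q) ^ (A.card - M.card) else 0) := Finset.sum_comm
      _ = _ := by
          apply Finset.sum_congr rfl
          intro M _
          rw [← Finset.sum_filter, Finset.sum_const, nsmul_eq_mul]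
          ring
  rw [h1]
  have h2 : (1 + q * (Real.exp a - 1)) ^ A.card
      = ∑ M ∈ A.powerset, (q * Real.exp a) ^ M.card * (1 - q) ^ (A.card - M.card) := by
    have e : 1 + q * (Real.exp a - 1) = q * Real.exp a + (1 - q) := by ring
    rw [e]
    exact (Finset.sum_pow_mul_eq_add_pow _ _ _).symm
  rw [h2, Finset.mul_sum]
  apply Finset.sum_le_sum
  intro M hM
  rw [mem_powerset] at hM
  have h3 := hK M hM
  have h4 : Real.exp (a * M.card) = Real.exp a ^ M.card := by
    rw [mul_comm, Real.exp_nat_mul]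
  rw [h4] at h3
  have h5 : 0 ≤ q ^ M.card * (1 - q) ^ (A.card - M.card) :=
    mul_nonneg (pow_nonneg hq0 _) (pow_nonneg (by linarith) _)
  calc q ^ M.card * (1 - q) ^ (A.card - M.card) * ((V.filter (fun u => s u ⊆ M)).card : ℝ)
      ≤ q ^ M.card * (1 - q) ^ (A.card - M.card) * (K * Real.exp a ^ M.card) :=
        mul_le_mul_of_nonneg_left h3 h5
    _ = K * ((q * Real.exp a) ^ M.card * (1 - q) ^ (A.card - M.card)) := by
        rw [mul_pow]; ring

lemma level_bound {V : Finset β} (s : β → Finset α) (A : Finset α) (hs : ∀ u ∈ V, s u ⊆ A)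
    {K a : ℝ} (hK0 : 0 ≤ K)
    (hK : ∀ M ⊆ A, ((V.filter (fun u => s u ⊆ M)).card : ℝ) ≤ K * Real.exp (a * M.card))
    (ha : 2 ≤ Real.exp a) {j : ℕ} (hj : 0 < j) (hjk : 2 * j ≤ A.card) :
    ((V.filter (fun u => (s u).card = j)).card : ℝ)
      ≤ K * (Real.exp a - 1) ^ j * (((A.card : ℝ) + 1) * A.card.choose j) := by
  classical
  set k := A.card with hk
  set E := Real.exp a - 1 with hE
  have hE1 : 1 ≤ E := by linarith
  have hj' : (0 : ℝ) < j := by exact_mod_cast hj
  have hkr : 2 * (j : ℝ) ≤ k := by exact_mod_cast hjk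
  have hkj : (0 : ℝ) < (k : ℝ) - j := by linarith
  set q : ℝ := j / (((k : ℝ) - j) * E) with hq
  have hq0 : 0 < q := by positivity
  have hq1 : q ≤ 1 := by
    rw [hq, div_le_one (by positivity)]
    nlinarith
  have h1 := avg_bound s A hs hK hq0.le hq1
  rw [← hE, ← hk] at h1
  have h2 : ((V.filter (fun u => (s u).card = j)).card : ℝ) * q ^ j ≤ ∑ u ∈ V, q ^ (s u).card := by
    calc ((V.filter (fun u => (s u).card = j)).card : ℝ) * q ^ j
        = ∑ u ∈ V.filter (fun u => (s u).card = j), q ^ (s u).card := by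
          rw [Finset.sum_congr rfl (g := fun _ => q ^ j), Finset.sum_const, nsmul_eq_mul]
          intro u hu
          rw [(mem_filter.mp hu).2]
      _ ≤ _ := Finset.sum_le_sum_of_subset_of_nonneg (Finset.filter_subset _ _)
          (fun _ _ _ => pow_nonneg hq0.le _)
  have h3 : 1 + q * E = k / ((k : ℝ) - j) := by
    rw [hq]
    have : E ≠ 0 := by positivity
    field_simp
    ring
  rw [h3] at h1
  have h4 := h2.trans h1
  have hkjk : j < k := by omega
  have hent := entropy_nat hj hkjk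
  have h5 : (k : ℝ) ^ k = (k / ((k : ℝ) - j)) ^ k * (((k : ℝ) - j) ^ (k - j) * ((k : ℝ) - j) ^ j) := by
    rw [← pow_add, Nat.sub_add_cancel hkjk.le, div_pow]
    field_simp
  rw [h5] at hent
  -- `(k/(k-j))^k (k-j)^j ≤ (k+1) C(k,j) j^j`
  have h6 : (k / ((k : ℝ) - j)) ^ k * ((k : ℝ) - j) ^ j ≤ ((k : ℝ) + 1) * (k.choose j) * (j : ℝ) ^ j := by
    have hp : 0 < ((k : ℝ) - j) ^ (k - j) := by positivity
    have : ((k / ((k : ℝ) - j)) ^ k * ((k : ℝ) - j) ^ j) * ((k : ℝ) - j) ^ (k - j)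
        ≤ (((k : ℝ) + 1) * (k.choose j) * (j : ℝ) ^ j) * ((k : ℝ) - j) ^ (k - j) := by
      calc _ = (k / ((k : ℝ) - j)) ^ k * (((k : ℝ) - j) ^ (k - j) * ((k : ℝ) - j) ^ j) := by ring
        _ ≤ _ := hent
        _ = _ := by ring
    exact le_of_mul_le_mul_right this hp
  have h7 : q ^ j * (((k : ℝ) - j) ^ j * E ^ j) = (j : ℝ) ^ j := by
    rw [← mul_pow, ← mul_pow, hq]
    congr 1
    field_simp
  have hqj : 0 < q ^ j := by positivity
  have h8 : ((V.filter (fun u => (s u).card = j)).card : ℝ) * q ^ j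
      ≤ (K * E ^ j * (((k : ℝ) + 1) * k.choose j)) * q ^ j := by
    refine h4.trans ?_
    have hpos : 0 < ((k : ℝ) - j) ^ j := by positivity
    have h9 : (k / ((k : ℝ) - j)) ^ k ≤ ((k : ℝ) + 1) * (k.choose j) * (q ^ j * E ^ j) := by
      have : (k / ((k : ℝ) - j)) ^ k * ((k : ℝ) - j) ^ j
          ≤ (((k : ℝ) + 1) * (k.choose j) * (q ^ j * E ^ j)) * ((k : ℝ) - j) ^ j := by
        refine h6.trans (le_of_eq ?_)
        rw [← h7]
        ring
      exact le_of_mul_le_mul_right this hpos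
    calc K * (k / ((k : ℝ) - j)) ^ k ≤ K * (((k : ℝ) + 1) * (k.choose j) * (q ^ j * E ^ j)) :=
          mul_le_mul_of_nonneg_left h9 hK0
      _ = _ := by ring
  exact le_of_mul_le_mul_right h8 hqj

end Run7.h111
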