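import Mathlib

set_option autoImplicit false

/-!
The largest term of a binomial expansion, and an identity for multinomial coefficients.
-/

open Finset

namespace Run7.h111

lemma term_succ {x y : ℝ} {k i : ℕ} (hi : i < k) :
    ((k.choose (i + 1) : ℝ) * x ^ (i + 1) * y ^ (k - (i + 1))) * ((i + 1 : ℕ) * y)
      = ((k.choose i : ℝ) * x ^ i * y ^ (k - i)) * ((k - i : ℕ) * x) := by
  have h1 : k.choose (i + 1) * (i + 1) = k.choose i * (k - i) := Nat.choose_succ_right_eq k i
  have h2 : (k.choose (i + 1) : ℝ) * ((i + 1 : ℕ) : ℝ) = (k.choose i : ℝ) * ((k - i : ℕ) : ℝ) := by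
    exact_mod_cast h1
  have h3 : y ^ (k - i) = y ^ (k - (i + 1)) * y := by
    rw [← pow_succ]
    congr 1
    omega
  rw [h3, pow_succ]
  calc _ = ((k.choose (i + 1) : ℝ) * ((i + 1 : ℕ) : ℝ)) * (x ^ i * x * y ^ (k - (i + 1)) * y) := by ring
    _ = _ := by rw [h2]; ring

/-- the term at `i0` of the binomial expansion is the largest one -/
lemma term_le {x y : ℝ} (hx : 0 < x) (hy : 0 < y) {k i0 : ℕ} (hk : i0 ≤ k)
    (h1 : (i0 : ℝ) * y ≤ ((k : ℝ) + 1 - i0) * x) (h2 : ((k : ℝ) - i0) * x ≤ ((i0 : ℝ) + 1) * y) :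
    ∀ i ≤ k, (k.choose i : ℝ) * x ^ i * y ^ (k - i)
      ≤ (k.choose i0 : ℝ) * x ^ i0 * y ^ (k - i0) := by
  set f : ℕ → ℝ := fun i => (k.choose i : ℝ) * x ^ i * y ^ (k - i) with hf
  have hfpos : ∀ i, 0 ≤ f i := fun i => by positivity
  have hup : ∀ i, i < i0 → f i ≤ f (i + 1) := by
    intro i hi
    have hik : i < k := lt_of_lt_of_le hi hk
    have e := term_succ (x := x) (y := y) hik
    change f (i + 1) * _ = f i * _ at e
    have c1 : (((i + 1 : ℕ) : ℝ)) * y ≤ ((k - i : ℕ) : ℝ) * x := by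
      rw [Nat.cast_sub hik.le]
      push_cast
      have e1 : ((i : ℝ) + 1) ≤ i0 := by exact_mod_cast hi
      nlinarith
    have c2 : 0 < (((i + 1 : ℕ) : ℝ)) * y := by positivity
    by_contra hcon
    push Not at hcon
    have e2 : f (i + 1) * ((((i + 1 : ℕ) : ℝ)) * y) < f i * ((((i + 1 : ℕ) : ℝ)) * y) :=
      mul_lt_mul_of_pos_right hcon c2
    have e3 : f i * ((((i + 1 : ℕ) : ℝ)) * y) ≤ f i * (((k - i : ℕ) : ℝ) * x) :=
      mul_le_mul_of_nonneg_left c1 (hfpos i)
    linarith
  have hdown : ∀ i, i0 ≤ i → i < k → f (i + 1) ≤ f i := by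
    intro i hi hik
    have e := term_succ (x := x) (y := y) hik
    change f (i + 1) * _ = f i * _ at e
    have c1 : ((k - i : ℕ) : ℝ) * x ≤ (((i + 1 : ℕ) : ℝ)) * y := by
      rw [Nat.cast_sub hik.le]
      push_cast
      have e1 : (i0 : ℝ) ≤ i := by exact_mod_cast hi
      nlinarith
    have c2 : 0 < (((i + 1 : ℕ) : ℝ)) * y := by positivity
    by_contra hcon
    push Not at hcon
    have e2 : f i * ((((i + 1 : ℕ) : ℝ)) * y) < f (i + 1) * ((((i + 1 : ℕ) : ℝ)) * y) :=
      mul_lt_mul_of_pos_right hcon c2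
    have e3 : f i * (((k - i : ℕ) : ℝ) * x) ≤ f i * ((((i + 1 : ℕ) : ℝ)) * y) :=
      mul_le_mul_of_nonneg_left c1 (hfpos i)
    linarith
  intro i hik
  change f i ≤ f i0
  rcases le_total i i0 with h | h
  · obtain ⟨d, rfl⟩ := Nat.exists_eq_add_of_le h
    clear hik
    induction d with
    | zero => exact le_refl _
    | succ d ih =>
      -- not used: handled below
      have : ∀ e, e ≤ d + 1 → f (i + (d + 1) - e) ≤ f (i + (d + 1)) := by
        intro e
        induction e with
        | zero => intro _; simp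
        | succ e ihe =>
          intro he
          have h3 := ihe (by omega)
          have h4 := hup (i + (d + 1) - (e + 1)) (by omega)
          have h5 : i + (d + 1) - (e + 1) + 1 = i + (d + 1) - e := by omega
          rw [h5] at h4
          exact h4.trans h3
      have h6 := this (d + 1) le_rfl
      simpa using h6
  · obtain ⟨d, rfl⟩ := Nat.exists_eq_add_of_le h
    clear h
    induction d with
    | zero => exact le_refl _
    | succ d ih =>
      have h3 := ih (by omega)
      have h4 := hdown (i0 + d) (by omega) (by omega)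
      have h5 : i0 + (d + 1) = i0 + d + 1 := by omega
      rw [h5]
      exact h4.trans h3

/-- lower bound for the largest term -/
lemma pow_le_max_term {x y : ℝ} (hx : 0 < x) (hy : 0 < y) {k i0 : ℕ} (hk : i0 ≤ k)
    (h1 : (i0 : ℝ) * y ≤ ((k : ℝ) + 1 - i0) * x) (h2 : ((k : ℝ) - i0) * x ≤ ((i0 : ℝ) + 1) * y) :
    (x + y) ^ k ≤ ((k : ℝ) + 1) * ((k.choose i0 : ℝ) * x ^ i0 * y ^ (k - i0)) := by
  rw [add_pow]
  calc ∑ m ∈ range (k + 1), x ^ m * y ^ (k - m) * (k.choose m : ℝ)
      ≤ ∑ m ∈ range (k + 1), (k.choose i0 : ℝ) * x ^ i0 * y ^ (k - i0) := by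
        apply sum_le_sum
        intro i hi
        have := term_le hx hy hk h1 h2 i (by simpa [Nat.lt_succ_iff] using hi)
        calc x ^ i * y ^ (k - i) * (k.choose i : ℝ) = (k.choose i : ℝ) * x ^ i * y ^ (k - i) := by ring
          _ ≤ _ := this
    _ = _ := by
        rw [sum_const, card_range, nsmul_eq_mul]
        push_cast
        ring

/-- the integer version of the entropy bound -/
lemma entropy_nat {k j : ℕ} (hj : 0 < j) (hjk : j < k) :
    (k : ℝ) ^ k ≤ ((k : ℝ) + 1) * ((k.choose j : ℝ) * (j : ℝ) ^ j * ((k : ℝ) - j) ^ (k - j)) := by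
  have hj' : (0 : ℝ) < j := by exact_mod_cast hj
  have hkj : (0 : ℝ) < (k : ℝ) - j := by
    have : (j : ℝ) < k := by exact_mod_cast hjk
    linarith
  have h := pow_le_max_term (x := (j : ℝ)) (y := (k : ℝ) - j) hj' hkj hjk.le
    (by nlinarith) (by nlinarith)
  have e : (j : ℝ) + ((k : ℝ) - j) = k := by ring
  rwa [e] at h

/-- the multinomial identity behind the count of pairs at a given distance -/
lemma choose_identity {k ρ i : ℕ} (hi : i ≤ ρ) (hk : ρ + i ≤ k) :
    k.choose (2 * i) * ((2 * i).choose i * (k - 2 * i).choose (ρ - i))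
      = k.choose ρ * (ρ.choose i * (k - ρ).choose i) := by
  have e1 : k.choose (2 * i) * (2 * i).choose i = k.choose i * (k - i).choose i := by
    have := Nat.choose_mul (n := k) (k := 2 * i) (s := i) (by omega)
    have h2 : 2 * i - i = i := by omega
    rw [h2] at this
    exact this
  have e2 : (k - i).choose i * (k - 2 * i).choose (ρ - i) = (k - i).choose ρ * ρ.choose i := by
    have := Nat.choose_mul (n := k - i) (k := ρ) (s := i) hi
    have h2 : k - i - i = k - 2 * i := by omega
    rw [h2] at this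
    exact this.symm
  have e3 : k.choose i * (k - i).choose ρ = k.choose ρ * (k - ρ).choose i := by
    have h1 := Nat.choose_mul (n := k) (k := i + ρ) (s := i) (by omega)
    have h2 := Nat.choose_mul (n := k) (k := i + ρ) (s := ρ) (by omega)
    have h3 : i + ρ - i = ρ := by omega
    have h4 : i + ρ - ρ = i := by omega
    rw [h3] at h1
    rw [h4] at h2
    have h5 : (i + ρ).choose i = (i + ρ).choose ρ := by
      rw [← Nat.choose_symm_of_eq_add (a := i) (b := ρ) rfl]
    rw [← h1, ← h2, h5]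
  calc k.choose (2 * i) * ((2 * i).choose i * (k - 2 * i).choose (ρ - i))
      = (k.choose (2 * i) * (2 * i).choose i) * (k - 2 * i).choose (ρ - i) := by ring
    _ = k.choose i * ((k - i).choose i * (k - 2 * i).choose (ρ - i)) := by rw [e1]; ring
    _ = k.choose i * (k - i).choose ρ * ρ.choose i := by rw [e2]; ring
    _ = _ := by rw [e3]; ring

lemma choose_mul_le {k ρ i : ℕ} (hi : i ≤ ρ) (hk : ρ ≤ k) :
    ρ.choose i * (k - ρ).choose i ≤ k.choose ρ := by
  have h := Nat.add_choose_eq ρ (k - ρ) ρ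
  have e : ρ + (k - ρ) = k := by omega
  rw [e] at h
  rw [h]
  have hmem : (ρ - i, i) ∈ antidiagonal ρ := by
    rw [HasAntidiagonal.mem_antidiagonal]
    omega
  have := single_le_sum (f := fun ij : ℕ × ℕ => ρ.choose ij.1 * (k - ρ).choose ij.2)
    (fun _ _ => Nat.zero_le _) hmem
  refine le_trans ?_ this
  change _ ≤ ρ.choose (ρ - i) * (k - ρ).choose i
  rw [Nat.choose_symm hi]

/-- `C(k, 2i) * #(pairs with a given difference) ≤ C(k, ρ)²` -/
lemma choose_pairs_le {k ρ i : ℕ} (hρ : ρ ≤ k) :
    k.choose (2 * i) * ((2 * i).choose i * (k - 2 * i).choose (ρ - i))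
      ≤ k.choose ρ * k.choose ρ ∨ ρ < i := by
  by_cases hi : i ≤ ρ
  · left
    by_cases hk : ρ + i ≤ k
    · rw [choose_identity hi hk]
      exact Nat.mul_le_mul_left _ (choose_mul_le hi hρ)
    · by_cases h2 : 2 * i ≤ k
      · have : (k - 2 * i).choose (ρ - i) = 0 := Nat.choose_eq_zero_of_lt (by omega)
        rw [this]
        simp
      · have : k.choose (2 * i) = 0 := Nat.choose_eq_zero_of_lt (by omega)
        rw [this]
        simp
  · right
    omega

end Run7.h111
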