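import Mathlib

set_option autoImplicit false

/-!
A kernel inequality: the mass of a distribution on the subsets of `A` with small Fourier
coefficients, near the empty set.
-/

open Finset
open scoped symmDiff

namespace Run7.h111

variable {α β : Type*} [DecidableEq α]

/-- the character `(-1)^|S ∩ T|` -/
noncomputable def sg (S T : Finset α) : ℝ := ∏ a ∈ T, (if a ∈ S then (-1 : ℝ) else 1)

lemma sg_empty (S : Finset α) : sg S ∅ = 1 := by simp [sg]

lemma abs_sg (S T : Finset α) : |sg S T| = 1 := by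
  unfold sg
  rw [Finset.abs_prod]
  apply Finset.prod_eq_one
  intro a _
  split_ifs <;> simp

lemma sg_orth {A S b b' : Finset α} (hS : S ⊆ A) (hb : b ⊆ A) (hb' : b' ⊆ A) :
    ∑ T ∈ A.powerset, sg S T * sg b T * sg b' T = if b ∆ b' = S then (2 : ℝ) ^ A.card else 0 := by
  classical
  set g : α → ℝ := fun a => (if a ∈ S then (-1 : ℝ) else 1) * (if a ∈ b then (-1 : ℝ) else 1)
    * (if a ∈ b' then (-1 : ℝ) else 1) with hg
  have h1 : ∀ T ∈ A.powerset, sg S T * sg b T * sg b' T = ∏ a ∈ T, g a := by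
    intro T _
    unfold sg
    rw [← Finset.prod_mul_distrib, ← Finset.prod_mul_distrib]
  rw [Finset.sum_congr rfl h1, ← Finset.prod_one_add]
  split_ifs with h
  · rw [Finset.prod_congr rfl (g := fun _ => (2 : ℝ)), Finset.prod_const]
    intro a _
    have h2 : a ∈ S ↔ (a ∈ b ∧ a ∉ b' ∨ a ∈ b' ∧ a ∉ b) := by
      rw [← h, Finset.mem_symmDiff]
    rw [hg]
    by_cases hb1 : a ∈ b <;> by_cases hb2 : a ∈ b'
    · have h3 : a ∉ S := by rw [h2]; tauto
      simp only [hb1, hb2, h3, if_true, if_false]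
      norm_num
    · have h3 : a ∈ S := by rw [h2]; tauto
      simp only [hb1, hb2, h3, if_true, if_false]
      norm_num
    · have h3 : a ∈ S := by rw [h2]; tauto
      simp only [hb1, hb2, h3, if_true, if_false]
      norm_num
    · have h3 : a ∉ S := by rw [h2]; tauto
      simp only [hb1, hb2, h3, if_true, if_false]
      norm_num
  · have hex : ∃ a ∈ A, ¬ (a ∈ S ↔ (a ∈ b ∧ a ∉ b' ∨ a ∈ b' ∧ a ∉ b)) := by
      by_contra hcon
      push Not at hcon
      apply h
      ext a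
      rw [Finset.mem_symmDiff]
      constructor
      · intro ha
        have haA : a ∈ A := by
          rcases ha with ha | ha
          · exact hb ha.1
          · exact hb' ha.1
        exact (hcon a haA).mpr ha
      · intro ha
        exact (hcon a (hS ha)).mp ha
    obtain ⟨a, haA, ha⟩ := hex
    apply Finset.prod_eq_zero haA
    rw [hg]
    by_cases hb1 : a ∈ b <;> by_cases hb2 : a ∈ b' <;> by_cases hs : a ∈ S <;>
      first | (exfalso; tauto) | (simp only [hb1, hb2, hs, if_true, if_false]; norm_num)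

/-- the kernel in the dual variable -/
noncomputable def Gk (A : Finset α) (ρ : ℕ) (c : ℝ) (T : Finset α) : ℝ :=
  ∑ b ∈ A.powersetCard ρ, ∑ b' ∈ A.powersetCard ρ,
    (c - ((b ∆ b').card : ℝ)) * (sg b T * sg b' T)

lemma card_symmDiff_real {A b b' : Finset α} {ρ : ℕ} (hb : b ∈ A.powersetCard ρ)
    (hb' : b' ∈ A.powersetCard ρ) :
    ((b ∆ b').card : ℝ) = 2 * ρ - 2 * ∑ a ∈ A, (if a ∈ b then (1 : ℝ) else 0) * (if a ∈ b' then 1 else 0) := by
  classical
  rw [mem_powersetCard] at hb hb'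
  have h1 : ∑ a ∈ A, (if a ∈ b then (1 : ℝ) else 0) * (if a ∈ b' then 1 else 0) = ((b ∩ b').card : ℝ) := by
    have : ∀ a ∈ A, (if a ∈ b then (1 : ℝ) else 0) * (if a ∈ b' then 1 else 0)
        = if a ∈ b ∩ b' then 1 else 0 := by
      intro a _
      by_cases h1 : a ∈ b <;> by_cases h2 : a ∈ b' <;> simp [h1, h2]
    rw [Finset.sum_congr rfl this, Finset.sum_ite_mem, Finset.sum_const, nsmul_eq_mul, mul_one]
    congr 2
    rw [Finset.inter_eq_right]
    exact (Finset.inter_subset_left).trans hb.1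
  rw [h1]
  have h2 : b ∆ b' = (b \ b') ∪ (b' \ b) := rfl
  have h3 : (b ∆ b').card = (b \ b').card + (b' \ b).card := by
    rw [h2]
    apply Finset.card_union_of_disjoint
    exact disjoint_sdiff_sdiff
  have h4 : (b \ b').card + (b ∩ b').card = b.card := Finset.card_sdiff_add_card_inter b b'
  have h5 : (b' \ b).card + (b' ∩ b).card = b'.card := Finset.card_sdiff_add_card_inter b' b
  rw [Finset.inter_comm b' b] at h5
  have h6 : (b ∆ b').card + 2 * (b ∩ b').card = 2 * ρ := by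
    rw [h3]
    have := hb.2
    have := hb'.2
    omega
  have h7 : ((b ∆ b').card : ℝ) + 2 * ((b ∩ b').card : ℝ) = 2 * ρ := by exact_mod_cast h6
  linarith

lemma Gk_ge {A : Finset α} {ρ : ℕ} (hA : 0 < A.card) {η Λ : ℝ}
    (hΛ : Λ = 2 * ρ - 2 * (ρ : ℝ) ^ 2 / A.card) (T : Finset α) :
    η * (∑ b ∈ A.powersetCard ρ, sg b T) ^ 2 ≤ Gk A ρ (Λ + η) T := by
  classical
  set B := A.powersetCard ρ with hB
  set f : Finset α → ℝ := fun b => sg b T with hf
  set F : α → ℝ := fun a => ∑ b ∈ B, (if a ∈ b then (1 : ℝ) else 0) * f b with hF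
  have hAr : (0 : ℝ) < A.card := by exact_mod_cast hA
  have h1 : Gk A ρ (Λ + η) T = (Λ + η - 2 * ρ) * (∑ b ∈ B, f b) ^ 2 + 2 * ∑ a ∈ A, F a ^ 2 := by
    unfold Gk
    have h2 : ∀ b ∈ B, ∀ b' ∈ B, (Λ + η - ((b ∆ b').card : ℝ)) * (sg b T * sg b' T)
        = (Λ + η - 2 * ρ) * (f b * f b')
          + 2 * ∑ a ∈ A, ((if a ∈ b then (1 : ℝ) else 0) * f b) * ((if a ∈ b' then (1 : ℝ) else 0) * f b') := by
      intro b hb b' hb'
      rw [card_symmDiff_real hb hb']
      have h3 : ∑ a ∈ A, ((if a ∈ b then (1 : ℝ) else 0) * f b) * ((if a ∈ b' then (1 : ℝ) else 0) * f b')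
          = (∑ a ∈ A, (if a ∈ b then (1 : ℝ) else 0) * (if a ∈ b' then 1 else 0)) * (f b * f b') := by
        rw [Finset.sum_mul]
        apply Finset.sum_congr rfl
        intro a _
        ring
      rw [h3]
      simp only [hf]
      ring
    rw [Finset.sum_congr rfl (fun b hb => Finset.sum_congr rfl (fun b' hb' => h2 b hb b' hb'))]
    simp only [Finset.sum_add_distrib, ← Finset.mul_sum]
    congr 1
    · rw [sq, Finset.sum_mul]
    · congr 1
      have h4 : ∀ b ∈ B, ∑ b' ∈ B, ∑ a ∈ A, ((if a ∈ b then (1 : ℝ) else 0) * f b)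
          * ((if a ∈ b' then (1 : ℝ) else 0) * f b')
          = ∑ a ∈ A, ((if a ∈ b then (1 : ℝ) else 0) * f b) * F a := by
        intro b _
        rw [Finset.sum_comm]
        apply Finset.sum_congr rfl
        intro a _
        rw [hF, Finset.mul_sum]
      rw [Finset.sum_congr rfl h4, Finset.sum_comm]
      apply Finset.sum_congr rfl
      intro a _
      rw [← Finset.sum_mul, sq]
  have h5 : ∑ a ∈ A, F a = ρ * ∑ b ∈ B, f b := by
    simp only [hF]
    rw [Finset.sum_comm, Finset.mul_sum]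
    apply Finset.sum_congr rfl
    intro b hb
    rw [← Finset.sum_mul]
    congr 1
    rw [hB, mem_powersetCard] at hb
    rw [Finset.sum_ite_mem, Finset.sum_const, nsmul_eq_mul, mul_one,
      Finset.inter_eq_right.mpr hb.1, hb.2]
  have h6 : (∑ a ∈ A, F a) ^ 2 ≤ A.card * ∑ a ∈ A, F a ^ 2 := sq_sum_le_card_mul_sum_sq
  rw [h5, mul_pow] at h6
  have h7 : (ρ : ℝ) ^ 2 / A.card * (∑ b ∈ B, f b) ^ 2 ≤ ∑ a ∈ A, F a ^ 2 := by
    rw [div_mul_eq_mul_div, div_le_iff₀ hAr]
    linarith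
  rw [h1, hΛ]
  have h8 : (2 * (ρ : ℝ) - 2 * (ρ : ℝ) ^ 2 / A.card + η - 2 * ρ) * (∑ b ∈ B, f b) ^ 2
      = η * (∑ b ∈ B, f b) ^ 2 - 2 * ((ρ : ℝ) ^ 2 / A.card * (∑ b ∈ B, f b) ^ 2) := by ring
  rw [h8]
  linarith

lemma Gk_sum {A : Finset α} {ρ : ℕ} {c : ℝ} :
    ∑ T ∈ A.powerset, Gk A ρ c T = 2 ^ A.card * ((A.powersetCard ρ).card * c) := by
  classical
  unfold Gk
  rw [Finset.sum_comm]
  have h1 : ∀ b ∈ A.powersetCard ρ, ∑ T ∈ A.powerset, ∑ b' ∈ A.powersetCard ρ,
      (c - ((b ∆ b').card : ℝ)) * (sg b T * sg b' T) = 2 ^ A.card * c := by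
    intro b hb
    have hbA := (mem_powersetCard.mp hb).1
    rw [Finset.sum_comm, Finset.sum_eq_single b]
    · have h2 : ∀ T ∈ A.powerset, (c - ((b ∆ b).card : ℝ)) * (sg b T * sg b T) = c := by
        intro T _
        have h3 : sg b T * sg b T = 1 := by
          rw [← sq, ← sq_abs, abs_sg, one_pow]
        rw [h3, symmDiff_self]
        simp
      rw [Finset.sum_congr rfl h2, Finset.sum_const, card_powerset, nsmul_eq_mul]
      push_cast
      ring
    · intro b' hb' hne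
      have hbA' := (mem_powersetCard.mp hb').1
      rw [← Finset.mul_sum]
      have h3 := sg_orth (A := A) (S := ∅) (b := b) (b' := b') (Finset.empty_subset _) hbA hbA'
      have h4 : ∀ T ∈ A.powerset, sg b T * sg b' T = sg ∅ T * sg b T * sg b' T := by
        intro T _
        have : sg ∅ T = 1 := by simp [sg]
        rw [this, one_mul]
      rw [Finset.sum_congr rfl h4, h3, if_neg, mul_zero]
      intro h5
      apply hne
      have : b ∆ b' = ⊥ := h5
      exact (symmDiff_eq_bot.mp this).symm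
    · intro h
      exact absurd hb h
  rw [Finset.sum_congr rfl h1, Finset.sum_const, nsmul_eq_mul]
  ring

/-- **Kernel inequality.** -/
theorem kernel {U : Finset β} (s : β → Finset α) (A : Finset α) (hs : ∀ u ∈ U, s u ⊆ A)
    {Δ : ℝ} (hΔ : ∀ T ⊆ A, T.Nonempty → |∑ u ∈ U, sg (s u) T| ≤ Δ) (hΔ0 : 0 ≤ Δ)
    {ρ : ℕ} (hA : 0 < A.card) {η Λ : ℝ} (hη : 0 ≤ η)
    (hΛ : Λ = 2 * ρ - 2 * (ρ : ℝ) ^ 2 / A.card) :
    η * U.card * ((A.powersetCard ρ).card : ℝ) ^ 2
        - Δ * (2 ^ A.card * ((A.powersetCard ρ).card * (Λ + η)))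
      ≤ 2 ^ A.card * ∑ u ∈ U, ∑ x ∈ A.powersetCard ρ ×ˢ A.powersetCard ρ,
          (if x.1 ∆ x.2 = s u then Λ + η - ((s u).card : ℝ) else 0) := by
  classical
  set B := A.powersetCard ρ with hB
  have hG0 : ∀ T, 0 ≤ Gk A ρ (Λ + η) T := fun T =>
    le_trans (mul_nonneg hη (sq_nonneg _)) (Gk_ge hA hΛ T)
  -- expansion
  have hexp : 2 ^ A.card * ∑ u ∈ U, ∑ x ∈ B ×ˢ B,
      (if x.1 ∆ x.2 = s u then Λ + η - ((s u).card : ℝ) else 0)
      = ∑ T ∈ A.powerset, (∑ u ∈ U, sg (s u) T) * Gk A ρ (Λ + η) T := by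
    have h1 : ∀ u ∈ U, ∀ x ∈ B ×ˢ B,
        (2 : ℝ) ^ A.card * (if x.1 ∆ x.2 = s u then Λ + η - ((s u).card : ℝ) else 0)
        = ∑ T ∈ A.powerset, (Λ + η - ((x.1 ∆ x.2).card : ℝ)) * (sg (s u) T * sg x.1 T * sg x.2 T) := by
      intro u hu x hx
      rw [mem_product] at hx
      have hx1 := (mem_powersetCard.mp hx.1).1
      have hx2 := (mem_powersetCard.mp hx.2).1
      rw [← Finset.mul_sum, sg_orth (hs u hu) hx1 hx2]
      split_ifs with h
      · rw [h]; ring
      · simp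
    rw [Finset.mul_sum]
    simp only [Finset.mul_sum]
    rw [Finset.sum_congr rfl (fun u hu => Finset.sum_congr rfl (fun x hx => h1 u hu x hx))]
    have h2 : ∀ u ∈ U, ∑ x ∈ B ×ˢ B, ∑ T ∈ A.powerset,
        (Λ + η - ((x.1 ∆ x.2).card : ℝ)) * (sg (s u) T * sg x.1 T * sg x.2 T)
        = ∑ T ∈ A.powerset, sg (s u) T * Gk A ρ (Λ + η) T := by
      intro u _
      rw [Finset.sum_comm]
      apply Finset.sum_congr rfl
      intro T _
      unfold Gk
      rw [Finset.sum_product, Finset.mul_sum]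
      apply Finset.sum_congr rfl
      intro b _
      rw [Finset.mul_sum]
      apply Finset.sum_congr rfl
      intro b' _
      ring
    rw [Finset.sum_congr rfl h2, Finset.sum_comm]
    apply Finset.sum_congr rfl
    intro T _
    rw [Finset.sum_mul]
  rw [hexp]
  -- split off the empty set
  have hemp : (∅ : Finset α) ∈ A.powerset := Finset.empty_mem_powerset A
  rw [← Finset.add_sum_erase _ _ hemp]
  have h3 : (∑ u ∈ U, sg (s u) ∅) = U.card := by
    simp only [sg_empty]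
    rw [Finset.sum_const, nsmul_eq_mul, mul_one]
  have h4 : η * (B.card : ℝ) ^ 2 ≤ Gk A ρ (Λ + η) ∅ := by
    have := Gk_ge (A := A) (ρ := ρ) (η := η) hA hΛ ∅
    simp only [sg_empty] at this
    rw [Finset.sum_const, nsmul_eq_mul, mul_one] at this
    exact this
  have h5 : -(Δ * ∑ T ∈ A.powerset, Gk A ρ (Λ + η) T)
      ≤ ∑ T ∈ A.powerset.erase ∅, (∑ u ∈ U, sg (s u) T) * Gk A ρ (Λ + η) T := by
    have h6 : -(Δ * ∑ T ∈ A.powerset.erase ∅, Gk A ρ (Λ + η) T)
        ≤ ∑ T ∈ A.powerset.erase ∅, (∑ u ∈ U, sg (s u) T) * Gk A ρ (Λ + η) T := by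
      rw [← mul_neg, ← Finset.sum_neg_distrib, Finset.mul_sum]
      apply Finset.sum_le_sum
      intro T hT
      rw [Finset.mem_erase, mem_powerset] at hT
      have h7 := hΔ T hT.2 (Finset.nonempty_iff_ne_empty.mpr hT.1)
      have h8 := (abs_le.mp h7).1
      have h9 := mul_le_mul_of_nonneg_right h8 (hG0 T)
      linarith
    refine le_trans ?_ h6
    apply neg_le_neg
    apply mul_le_mul_of_nonneg_left _ hΔ0
    exact Finset.sum_le_sum_of_subset_of_nonneg (Finset.erase_subset _ _) (fun T _ _ => hG0 T)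
  rw [Gk_sum] at h5
  rw [h3]
  have h10 : (U.card : ℝ) * (η * (B.card : ℝ) ^ 2) ≤ U.card * Gk A ρ (Λ + η) ∅ :=
    mul_le_mul_of_nonneg_left h4 (by positivity)
  calc η * U.card * (B.card : ℝ) ^ 2 - Δ * (2 ^ A.card * (B.card * (Λ + η)))
      = (U.card : ℝ) * (η * (B.card : ℝ) ^ 2) + -(Δ * (2 ^ A.card * (B.card * (Λ + η)))) := by ring
    _ ≤ _ := add_le_add h10 h5

end Run7.h111
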