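import Pool.Agent.Run7.h111.Binom

set_option autoImplicit false

/-!
Counting pairs of `ρ`-subsets with a given symmetric difference.
-/

open Finset
open scoped symmDiff

namespace Run7.h111

variable {α : Type*} [DecidableEq α]

/-- number of pairs of `ρ`-subsets of `A` with symmetric difference `S` -/
def pc (A : Finset α) (ρ : ℕ) (S : Finset α) : ℕ :=
  ((A.powersetCard ρ ×ˢ A.powersetCard ρ).filter (fun x => x.1 ∆ x.2 = S)).card

lemma pc_aux {A S : Finset α} {ρ : ℕ} {x : Finset α × Finset α}
    (hx : x ∈ (A.powersetCard ρ ×ˢ A.powersetCard ρ).filter (fun x => x.1 ∆ x.2 = S)) :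
    x.1 ∩ S = x.1 \ x.2 ∧ S.card = 2 * (x.1 \ x.2).card ∧ x.2 = x.1 ∆ S ∧
      (x.1 \ x.2).card ≤ ρ ∧ (x.1 \ S).card = ρ - (x.1 \ x.2).card ∧ x.1 ⊆ A := by
  rw [mem_filter, mem_product, mem_powersetCard, mem_powersetCard] at hx
  obtain ⟨⟨⟨h1, h2⟩, h3, h4⟩, h5⟩ := hx
  have e1 : x.1 ∩ S = x.1 \ x.2 := by
    rw [← h5]
    ext a
    simp only [mem_inter, mem_symmDiff, mem_sdiff]
    tauto
  have c1 : (x.1 \ x.2).card + (x.1 ∩ x.2).card = x.1.card := Finset.card_sdiff_add_card_inter _ _
  have c2 : (x.2 \ x.1).card + (x.2 ∩ x.1).card = x.2.card := Finset.card_sdiff_add_card_inter _ _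
  rw [Finset.inter_comm x.2 x.1] at c2
  have c3 : S.card = (x.1 \ x.2).card + (x.2 \ x.1).card := by
    rw [← h5]
    have h2 : x.1 ∆ x.2 = (x.1 \ x.2) ∪ (x.2 \ x.1) := rfl
    rw [h2]
    apply Finset.card_union_of_disjoint
    exact disjoint_sdiff_sdiff
  have c4 : (x.1 \ S).card + (x.1 ∩ S).card = x.1.card := Finset.card_sdiff_add_card_inter _ _
  rw [e1] at c4
  refine ⟨e1, by omega, ?_, by omega, by omega, h1⟩
  rw [← h5, symmDiff_symmDiff_cancel_left]

lemma pc_mul_le {A S : Finset α} {ρ : ℕ} (hρ : ρ ≤ A.card) (hS : S ⊆ A) :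
    pc A ρ S * A.card.choose S.card ≤ (A.powersetCard ρ).card ^ 2 := by
  classical
  by_cases hne : ((A.powersetCard ρ ×ˢ A.powersetCard ρ).filter (fun x => x.1 ∆ x.2 = S)).Nonempty
  · obtain ⟨x0, hx0⟩ := hne
    obtain ⟨-, hc, -, hi, -, -⟩ := pc_aux hx0
    set i := (x0.1 \ x0.2).card with hidef
    have hle : pc A ρ S ≤ (2 * i).choose i * (A.card - 2 * i).choose (ρ - i) := by
      have h1 : pc A ρ S ≤ (S.powersetCard i ×ˢ (A \ S).powersetCard (ρ - i)).card := by
        unfold pc
        apply Finset.card_le_card_of_injOn (fun x => (x.1 ∩ S, x.1 \ S))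
        · intro x hx
          have hx' : x ∈ (A.powersetCard ρ ×ˢ A.powersetCard ρ).filter (fun x => x.1 ∆ x.2 = S) := by
            simpa using hx
          obtain ⟨e1, e2, e3, e4, e5, e6⟩ := pc_aux hx'
          have e7 : (x.1 \ x.2).card = i := by omega
          rw [Finset.mem_coe, mem_product, mem_powersetCard, mem_powersetCard]
          refine ⟨⟨inter_subset_right, ?_⟩, ?_, ?_⟩
          · change (x.1 ∩ S).card = i
            rw [e1, e7]
          · exact Finset.sdiff_subset_sdiff e6 (Finset.Subset.refl _)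
          · change (x.1 \ S).card = ρ - i
            rw [e5, e7]
        · intro x hx y hy hxy
          have hx' : x ∈ (A.powersetCard ρ ×ˢ A.powersetCard ρ).filter (fun x => x.1 ∆ x.2 = S) := by
            simpa using hx
          have hy' : y ∈ (A.powersetCard ρ ×ˢ A.powersetCard ρ).filter (fun x => x.1 ∆ x.2 = S) := by
            simpa using hy
          obtain ⟨-, -, e3, -, -, -⟩ := pc_aux hx'
          obtain ⟨-, -, f3, -, -, -⟩ := pc_aux hy'
          simp only [Prod.mk.injEq] at hxy
          have g1 : x.1 = y.1 := by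
            have a1 : x.1 = (x.1 ∩ S) ∪ (x.1 \ S) := by
              ext a; simp only [mem_union, mem_inter, mem_sdiff]; tauto
            have a2 : y.1 = (y.1 ∩ S) ∪ (y.1 \ S) := by
              ext a; simp only [mem_union, mem_inter, mem_sdiff]; tauto
            rw [a1, a2, hxy.1, hxy.2]
          have g2 : x.2 = y.2 := by rw [e3, f3, g1]
          exact Prod.ext g1 g2
      rw [card_product, card_powersetCard, card_powersetCard, card_sdiff_of_subset hS, hc] at h1
      exact h1
    rw [card_powersetCard, hc]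
    rcases choose_pairs_le (k := A.card) (ρ := ρ) (i := i) hρ with h | h
    · calc pc A ρ S * A.card.choose (2 * i)
          ≤ ((2 * i).choose i * (A.card - 2 * i).choose (ρ - i)) * A.card.choose (2 * i) :=
            Nat.mul_le_mul_right _ hle
        _ = A.card.choose (2 * i) * ((2 * i).choose i * (A.card - 2 * i).choose (ρ - i)) := by ring
        _ ≤ A.card.choose ρ * A.card.choose ρ := h
        _ = _ := by ring
    · omega
  · rw [Finset.not_nonempty_iff_eq_empty] at hne
    unfold pc
    rw [hne]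
    simp

lemma pc_empty {A : Finset α} {ρ : ℕ} : pc A ρ ∅ = (A.powersetCard ρ).card := by
  classical
  unfold pc
  refine Finset.card_bij' (fun x _ => x.1) (fun b _ => (b, b)) (hi := ?_) (hj := ?_)
    (left_inv := ?_) (right_inv := ?_)
  · intro x hx
    rw [mem_filter, mem_product] at hx
    exact hx.1.1
  · intro b hb
    rw [mem_filter, mem_product]
    refine ⟨⟨hb, hb⟩, ?_⟩
    change b ∆ b = ∅
    rw [symmDiff_self]
    rfl
  · intro x hx
    rw [mem_filter, mem_product] at hx
    have h1 : x.1 ∆ x.2 = ⊥ := hx.2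
    have h2 := symmDiff_eq_bot.mp h1
    exact Prod.ext rfl h2
  · intro b hb
    rfl

end Run7.h111
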