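import Pool.Agent.Run7.h111.Kernel
import Pool.Agent.Run7.h111.Pairs
import Pool.Agent.Run7.h111.Avg

set_option autoImplicit false

/-!
The main inequality, combining the kernel bound with the bounds for the levels.
-/

open Finset
open scoped symmDiff

namespace Run7.h111

variable {α β : Type*} [DecidableEq α] [DecidableEq β]

theorem main_ineq {U V : Finset β} (hVU : V ⊆ U) (s : β → Finset α) (A : Finset α)
    (hs : ∀ u ∈ U, s u ⊆ A) (hsV : ∀ u ∈ V, (s u).Nonempty) (hsUV : ∀ u ∈ U \ V, s u = ∅)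
    {Δ : ℝ} (hΔ : ∀ T ⊆ A, T.Nonempty → |∑ u ∈ U, sg (s u) T| ≤ Δ) (hΔ0 : 0 ≤ Δ)
    {K a : ℝ} (hK0 : 0 ≤ K)
    (hK : ∀ M ⊆ A, ((V.filter (fun u => s u ⊆ M)).card : ℝ) ≤ K * Real.exp (a * M.card))
    (ha : 2 ≤ Real.exp a)
    {ρ : ℕ} (hρ : ρ ≤ A.card) (hA : 0 < A.card) {η Λ : ℝ} (hη : 0 ≤ η)
    (hΛ : Λ = 2 * ρ - 2 * (ρ : ℝ) ^ 2 / A.card) {J : ℕ} (hJ : Λ + η ≤ J + 1) (hJk : 2 * J ≤ A.card) :
    η * U.card * ((A.powersetCard ρ).card : ℝ) ^ 2
        - Δ * (2 ^ A.card * ((A.powersetCard ρ).card * (Λ + η)))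
      ≤ 2 ^ A.card * ((Λ + η) * (((U \ V).card : ℝ) * (A.powersetCard ρ).card
          + J * (K * (Real.exp a - 1) ^ J * ((A.card : ℝ) + 1) * ((A.powersetCard ρ).card : ℝ) ^ 2))) := by
  classical
  refine (kernel s A hs hΔ hΔ0 hA hη hΛ).trans ?_
  apply mul_le_mul_of_nonneg_left _ (by positivity)
  set B := A.powersetCard ρ with hB
  set k := A.card with hk
  set c := Λ + η with hc
  have hE1 : 1 ≤ Real.exp a - 1 := by linarith
  have hkr : (0 : ℝ) < k := by exact_mod_cast hA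
  have hc0 : 0 ≤ c := by
    have h1 : (ρ : ℝ) ≤ k := by exact_mod_cast hρ
    have h2 : (ρ : ℝ) ^ 2 / k ≤ ρ := by
      rw [div_le_iff₀ hkr]
      nlinarith [Nat.cast_nonneg (α := ℝ) ρ]
    rw [hc, hΛ]
    have h3 : 2 * (ρ : ℝ) ^ 2 / k = 2 * ((ρ : ℝ) ^ 2 / k) := by ring
    rw [h3]
    linarith
  -- inner sum
  have hin : ∀ u, ∑ x ∈ B ×ˢ B, (if x.1 ∆ x.2 = s u then c - ((s u).card : ℝ) else 0)
      = (pc A ρ (s u) : ℝ) * (c - ((s u).card : ℝ)) := by
    intro u
    rw [← Finset.sum_filter, Finset.sum_const, nsmul_eq_mul]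
    rfl
  simp only [hin]
  rw [← Finset.sum_sdiff hVU]
  have h1 : ∑ u ∈ U \ V, (pc A ρ (s u) : ℝ) * (c - ((s u).card : ℝ)) = ((U \ V).card : ℝ) * B.card * c := by
    rw [Finset.sum_congr rfl (g := fun _ => (B.card : ℝ) * c), Finset.sum_const, nsmul_eq_mul]
    · ring
    · intro u hu
      rw [hsUV u hu, pc_empty, ← hB, Finset.card_empty, Nat.cast_zero, sub_zero]
  have h2 : ∑ u ∈ V, (pc A ρ (s u) : ℝ) * (c - ((s u).card : ℝ))
      ≤ ∑ j ∈ Finset.Icc 1 J, ∑ u ∈ V.filter (fun u => (s u).card = j), (pc A ρ (s u) : ℝ) * c := by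
    have h3 : ∀ u ∈ V, (pc A ρ (s u) : ℝ) * (c - ((s u).card : ℝ))
        ≤ ∑ j ∈ Finset.Icc 1 J, (if (s u).card = j then (pc A ρ (s u) : ℝ) * c else 0) := by
      intro u hu
      by_cases h4 : (s u).card ≤ J
      · have h5 : (s u).card ∈ Finset.Icc 1 J := by
          rw [Finset.mem_Icc]
          exact ⟨Finset.card_pos.mpr (hsV u hu), h4⟩
        rw [Finset.sum_ite_eq, if_pos h5]
        apply mul_le_mul_of_nonneg_left _ (Nat.cast_nonneg _)
        have : (0 : ℝ) ≤ (s u).card := Nat.cast_nonneg _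
        linarith
      · have h5 : (J : ℝ) + 1 ≤ (s u).card := by
          have : J + 1 ≤ (s u).card := by omega
          exact_mod_cast this
        have h6 : (pc A ρ (s u) : ℝ) * (c - ((s u).card : ℝ)) ≤ 0 :=
          mul_nonpos_of_nonneg_of_nonpos (Nat.cast_nonneg _) (by linarith)
        refine h6.trans ?_
        apply Finset.sum_nonneg
        intro j _
        split_ifs
        · positivity
        · exact le_refl _
    refine (Finset.sum_le_sum h3).trans ?_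
    rw [Finset.sum_comm]
    apply le_of_eq
    apply Finset.sum_congr rfl
    intro j _
    rw [Finset.sum_filter]
  have h3 : ∀ j ∈ Finset.Icc 1 J, ∑ u ∈ V.filter (fun u => (s u).card = j), (pc A ρ (s u) : ℝ) * c
      ≤ (K * (Real.exp a - 1) ^ J * ((k : ℝ) + 1) * (B.card : ℝ) ^ 2) * c := by
    intro j hj
    rw [Finset.mem_Icc] at hj
    have h4 := level_bound s A (fun u hu => hs u (hVU hu)) hK0 hK ha (j := j) (by omega) (by omega)
    have hjk : j ≤ k := by omega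
    have hch : (0 : ℝ) < k.choose j := by exact_mod_cast Nat.choose_pos hjk
    have h5 : ∀ u ∈ V.filter (fun u => (s u).card = j), (pc A ρ (s u) : ℝ) * c
        ≤ ((B.card : ℝ) ^ 2 / k.choose j) * c := by
      intro u hu
      rw [mem_filter] at hu
      apply mul_le_mul_of_nonneg_right _ hc0
      rw [le_div_iff₀ hch]
      have h6 := pc_mul_le (A := A) (ρ := ρ) hρ (hs u (hVU hu.1))
      rw [hu.2] at h6
      exact_mod_cast h6
    refine (Finset.sum_le_sum h5).trans ?_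
    rw [Finset.sum_const, nsmul_eq_mul]
    have h6 : (0 : ℝ) ≤ ((B.card : ℝ) ^ 2 / k.choose j) * c := by positivity
    refine (mul_le_mul_of_nonneg_right h4 h6).trans ?_
    have h7 : K * (Real.exp a - 1) ^ j * (((k : ℝ) + 1) * k.choose j)
        * ((B.card : ℝ) ^ 2 / k.choose j * c)
        = (K * (Real.exp a - 1) ^ j * ((k : ℝ) + 1) * (B.card : ℝ) ^ 2) * c := by
      field_simp
    rw [h7]
    apply mul_le_mul_of_nonneg_right _ hc0
    apply mul_le_mul_of_nonneg_right _ (by positivity)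
    apply mul_le_mul_of_nonneg_right _ (by positivity)
    apply mul_le_mul_of_nonneg_left _ hK0
    exact pow_le_pow_right₀ hE1 hj.2
  have h4 := h2.trans (Finset.sum_le_sum h3)
  rw [Finset.sum_const, nsmul_eq_mul, Nat.card_Icc] at h4
  have h5 : J + 1 - 1 = J := by omega
  rw [h5] at h4
  rw [h1]
  calc ((U \ V).card : ℝ) * B.card * c + ∑ u ∈ V, (pc A ρ (s u) : ℝ) * (c - ((s u).card : ℝ))
      ≤ ((U \ V).card : ℝ) * B.card * c
        + J * ((K * (Real.exp a - 1) ^ J * ((k : ℝ) + 1) * (B.card : ℝ) ^ 2) * c) := by linarith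
    _ = _ := by ring

end Run7.h111
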