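import Pool.Agent.H341R2.WeilSharp
import Pool.Agent.H111R2.Core
import Pool.Agent.Run7.h111.MainIneq

set_option autoImplicit false

/-!
The Paley graph: cliques, independent sets and the patterns of a vertex on a maximum clique.
-/

open Finset Polynomial

namespace Run7.h111

variable {p : ℕ} [Fact p.Prime]

/-- the Paley graph (for `p ≡ 1 mod 4`) -/
def paley (p : ℕ) [Fact p.Prime] (h4 : p % 4 = 1) : SimpleGraph (ZMod p) where
  Adj x y := quadraticChar (ZMod p) (x - y) = 1
  symm := ⟨by
    intro x y h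
    have h1 : y - x = (-1) * (x - y) := by ring
    rw [h1, map_mul, h]
    have hp : ringChar (ZMod p) ≠ 2 := by
      rw [ZMod.ringChar_zmod_n]
      omega
    rw [quadraticChar_neg_one hp, ZMod.card, ZMod.χ₄_nat_one_mod_four h4]
    rfl⟩
  loopless := ⟨by
    intro x h
    simp at h⟩

lemma paley_adj (h4 : p % 4 = 1) (x y : ZMod p) :
    (paley p h4).Adj x y ↔ quadraticChar (ZMod p) (x - y) = 1 := Iff.rfl

lemma ringChar_ne_two (h4 : p % 4 = 1) : ringChar (ZMod p) ≠ 2 := by
  rw [ZMod.ringChar_zmod_n]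
  omega

/-- Weil's bound for the products of shifted characters -/
lemma weil_prod (h4 : p % 4 = 1) {T : Finset (ZMod p)} (hT : T.Nonempty) :
    |∑ u : ZMod p, ∏ a ∈ T, (quadraticChar (ZMod p) (u - a) : ℝ)| ≤ ((T.card : ℝ) - 1) * Real.sqrt p := by
  classical
  set f : (ZMod p)[X] := ∏ a ∈ T, (X - C a) with hf
  have hdeg : f.natDegree = T.card := by
    rw [hf, natDegree_prod_of_monic _ _ (fun a _ => monic_X_sub_C a)]
    simp
  have hmon : f.Monic := monic_prod_of_monic _ _ (fun a _ => monic_X_sub_C a)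
  have hd : 1 ≤ f.natDegree := by
    rw [hdeg]
    exact hT.card_pos
  have hns : ∀ (c : ZMod p) (h : (ZMod p)[X]), f ≠ C c * h ^ 2 := by
    intro c h heq
    have hsep : Squarefree f := by
      rw [hf]
      exact ((separable_prod_X_sub_C_iff' (f := fun a : ZMod p => a)).mpr
        (fun x _ y _ h => h)).squarefree
    have hunit : IsUnit h := by
      apply hsep
      rw [heq, ← sq]
      exact dvd_mul_left _ _
    have h1 : h.natDegree = 0 := natDegree_eq_zero_of_isUnit hunit
    have h2 : f.natDegree = 0 := by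
      rw [heq]
      have h3 : (C c * h ^ 2).natDegree ≤ (C c).natDegree + (h ^ 2).natDegree := natDegree_mul_le
      have h4 : (h ^ 2).natDegree ≤ 2 * h.natDegree := natDegree_pow_le
      rw [natDegree_C] at h3
      omega
    omega
  have h := Pool.Agent.H341R2.Sharp.weil_sharp (ringChar_ne_two h4) f hd hns
  rw [hdeg, ZMod.card] at h
  refine le_trans (le_of_eq ?_) h
  congr 1
  apply Finset.sum_congr rfl
  intro u _
  rw [hf, eval_prod, map_prod]
  push_cast
  apply Finset.prod_congr rfl
  intro a _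
  simp

/-- the non-neighbours of `u` in `A` -/
noncomputable def sv (A : Finset (ZMod p)) (u : ZMod p) : Finset (ZMod p) :=
  A.filter (fun a => quadraticChar (ZMod p) (u - a) = -1)

lemma sv_subset (A : Finset (ZMod p)) (u : ZMod p) : sv A u ⊆ A := Finset.filter_subset _ _

lemma mem_sv {A : Finset (ZMod p)} {u a : ZMod p} :
    a ∈ sv A u ↔ a ∈ A ∧ quadraticChar (ZMod p) (u - a) = -1 := by
  unfold sv
  rw [mem_filter]

/-- clique in the Paley graph -/
def Cl (h4 : p % 4 = 1) (A : Finset (ZMod p)) : Prop :=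
  ∀ x ∈ A, ∀ y ∈ A, x ≠ y → (paley p h4).Adj x y

lemma sv_eq_empty_of_mem {h4 : p % 4 = 1} {A : Finset (ZMod p)} (hA : Cl h4 A) {u : ZMod p} (hu : u ∈ A) :
    sv A u = ∅ := by
  rw [Finset.eq_empty_iff_forall_notMem]
  intro a ha
  rw [mem_sv] at ha
  by_cases h : u = a
  · rw [h, sub_self] at ha
    simp at ha
  · have := hA u hu a ha.1 h
    rw [paley_adj, ha.2] at this
    norm_num at this

lemma char_cases {x : ZMod p} (hx : x ≠ 0) :
    quadraticChar (ZMod p) x = 1 ∨ quadraticChar (ZMod p) x = -1 := quadraticChar_dichotomy hx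

lemma sum_sg_bound {h4 : p % 4 = 1} {A : Finset (ZMod p)} (hA : Cl h4 A) :
    ∀ T ⊆ A, T.Nonempty → |∑ u ∈ (Finset.univ : Finset (ZMod p)), sg (sv A u) T|
      ≤ 2 * A.card * Real.sqrt p := by
  classical
  intro T hTA hT
  have h1 : ∀ u : ZMod p, sg (sv A u) T
      = ∏ a ∈ T, (quadraticChar (ZMod p) (u - a) : ℝ) + (if u ∈ T then 1 else 0) := by
    intro u
    by_cases hu : u ∈ T
    · rw [if_pos hu, sv_eq_empty_of_mem hA (hTA hu)]
      have h2 : ∏ a ∈ T, (quadraticChar (ZMod p) (u - a) : ℝ) = 0 := by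
        apply Finset.prod_eq_zero hu
        simp
      rw [h2]
      simp [sg]
    · rw [if_neg hu, add_zero]
      unfold sg
      apply Finset.prod_congr rfl
      intro a ha
      have hne : u - a ≠ 0 := by
        rw [sub_ne_zero]
        rintro rfl
        exact hu ha
      rcases char_cases hne with h | h
      · rw [if_neg, h]
        · simp
        · rw [mem_sv, h]
          norm_num
      · rw [if_pos, h]
        · simp
        · rw [mem_sv]
          exact ⟨hTA ha, h⟩
  simp only [h1]
  rw [Finset.sum_add_distrib]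
  have h3 : ∑ u ∈ (Finset.univ : Finset (ZMod p)), (if u ∈ T then (1 : ℝ) else 0) = T.card := by
    rw [Finset.sum_ite_mem, Finset.univ_inter]
    simp
  rw [h3]
  have h5 := weil_prod h4 hT
  have h6 : (1 : ℝ) ≤ Real.sqrt p := by
    rw [Real.one_le_sqrt]
    exact_mod_cast (Fact.out : p.Prime).one_lt.le
  have h7 : (T.card : ℝ) ≤ A.card := by exact_mod_cast Finset.card_le_card hTA
  have h8 : (0 : ℝ) ≤ T.card := Nat.cast_nonneg _
  refine (abs_add_le _ _).trans ?_
  rw [abs_of_nonneg h8]
  have h9 : ((T.card : ℝ) - 1) * Real.sqrt p ≤ A.card * Real.sqrt p :=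
    mul_le_mul_of_nonneg_right (by linarith) (by positivity)
  have h10 : (T.card : ℝ) ≤ A.card * Real.sqrt p := by nlinarith
  linarith

/-- `A` is a clique of maximum size -/
structure MaxCl (h4 : p % 4 = 1) (A : Finset (ZMod p)) : Prop where
  cl : Cl h4 A
  max : ∀ Q : Finset (ZMod p), Cl h4 Q → Q.card ≤ A.card

lemma exists_maxCl (h4 : p % 4 = 1) : ∃ A : Finset (ZMod p), MaxCl h4 A := by
  classical
  have hne : ((Finset.univ : Finset (Finset (ZMod p))).filter (fun A => Cl h4 A)).Nonempty :=
    ⟨∅, by rw [mem_filter]; exact ⟨mem_univ _, by intro x hx; simp at hx⟩⟩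
  obtain ⟨A, hA, hmax⟩ := Finset.exists_max_image _ (fun A => A.card) hne
  rw [mem_filter] at hA
  exact ⟨A, hA.2, fun Q hQ => hmax Q (by rw [mem_filter]; exact ⟨mem_univ _, hQ⟩)⟩

lemma MaxCl.pos {h4 : p % 4 = 1} {A : Finset (ZMod p)} (hA : MaxCl h4 A) : 0 < A.card := by
  have h1 : Cl h4 ({0} : Finset (ZMod p)) := by
    intro x hx y hy hxy
    rw [mem_singleton] at hx hy
    exact absurd (hx.trans hy.symm) hxy
  have := hA.max _ h1
  simpa using this

/-- independent sets are at most as large as cliques -/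
lemma MaxCl.indep {h4 : p % 4 = 1} {A : Finset (ZMod p)} (hA : MaxCl h4 A) (I : Finset (ZMod p))
    (hI : ∀ x ∈ I, ∀ y ∈ I, x ≠ y → ¬ (paley p h4).Adj x y) : I.card ≤ A.card := by
  classical
  obtain ⟨g, hg⟩ := quadraticChar_exists_neg_one (ringChar_ne_two h4 : ringChar (ZMod p) ≠ 2)
  have hg0 : g ≠ 0 := by
    rintro rfl
    simp at hg
  have hinj : Function.Injective (fun x : ZMod p => g * x) := mul_right_injective₀ hg0
  have h1 : Cl h4 (I.image (fun x => g * x)) := by
    intro x hx y hy hxy
    rw [mem_image] at hx hy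
    obtain ⟨x', hx', rfl⟩ := hx
    obtain ⟨y', hy', rfl⟩ := hy
    have hne : x' ≠ y' := fun h => hxy (by rw [h])
    have h2 := hI x' hx' y' hy' hne
    rw [paley_adj] at h2 ⊢
    rw [← mul_sub, map_mul, hg]
    rcases char_cases (sub_ne_zero.mpr hne) with h | h
    · exact absurd h h2
    · rw [h]; norm_num
  have h2 := hA.max _ h1
  rwa [Finset.card_image_of_injective _ hinj] at h2

lemma isClique_Cl {h4 : p % 4 = 1} {t : Finset (ZMod p)} (h : (paley p h4).IsClique (t : Set (ZMod p))) :
    Cl h4 t := fun x hx y hy hxy => h (by simpa using hx) (by simpa using hy) hxy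

lemma MaxCl.kfree {h4 : p % 4 = 1} {A : Finset (ZMod p)} (hA : MaxCl h4 A) {M : Finset (ZMod p)}
    (hM : M ⊆ A) :
    Pool.Agent.H111R2.KFree (paley p h4) ((Finset.univ \ A).filter (fun u => sv A u ⊆ M)) (M.card + 1) ∧
    Pool.Agent.H111R2.KFree (paley p h4)ᶜ ((Finset.univ \ A).filter (fun u => sv A u ⊆ M)) (A.card + 1) := by
  classical
  constructor
  · intro t ht hcl
    rw [SimpleGraph.isNClique_iff] at hcl
    have hdisj : Disjoint t (A \ M) := by
      rw [Finset.disjoint_left]
      intro x hx hx2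
      have := ht hx
      rw [mem_filter, mem_sdiff] at this
      rw [mem_sdiff] at hx2
      exact this.1.2 hx2.1
    have hnb : ∀ x ∈ t, ∀ y ∈ A \ M, (paley p h4).Adj x y := by
      intro x hx y hy
      have h1 := ht hx
      rw [mem_filter, mem_sdiff] at h1
      rw [mem_sdiff] at hy
      rw [paley_adj]
      have hne : x - y ≠ 0 := by
        rw [sub_ne_zero]
        rintro rfl
        exact h1.1.2 hy.1
      rcases char_cases hne with h | h
      · exact h
      · exfalso
        apply hy.2
        apply h1.2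
        rw [mem_sv]
        exact ⟨hy.1, h⟩
    have hc : Cl h4 (t ∪ (A \ M)) := by
      intro x hx y hy hxy
      rw [mem_union] at hx hy
      rcases hx with hx | hx <;> rcases hy with hy | hy
      · exact isClique_Cl hcl.1 x hx y hy hxy
      · exact hnb x hx y hy
      · exact (hnb y hy x hx).symm
      · exact hA.cl x (mem_sdiff.mp hx).1 y (mem_sdiff.mp hy).1 hxy
    have h2 := hA.max _ hc
    rw [card_union_of_disjoint hdisj, card_sdiff_of_subset hM, hcl.2] at h2
    have := Finset.card_le_card hM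
    omega
  · intro t ht hcl
    rw [SimpleGraph.isNClique_iff] at hcl
    have h2 := hA.indep t (by
      intro x hx y hy hxy
      have := hcl.1 (by simpa using hx) (by simpa using hy) hxy
      rw [SimpleGraph.compl_adj] at this
      exact this.2)
    omega

lemma MaxCl.sv_nonempty {h4 : p % 4 = 1} {A : Finset (ZMod p)} (hA : MaxCl h4 A) :
    ∀ u ∈ Finset.univ \ A, (sv A u).Nonempty := by
  classical
  intro u hu
  rw [mem_sdiff] at hu
  by_contra hcon
  rw [Finset.not_nonempty_iff_eq_empty] at hcon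
  have hnb : ∀ y ∈ A, (paley p h4).Adj u y := by
    intro y hy
    rw [paley_adj]
    have hne : u - y ≠ 0 := by
      rw [sub_ne_zero]
      rintro rfl
      exact hu.2 hy
    rcases char_cases hne with h | h
    · exact h
    · exfalso
      have : y ∈ sv A u := by
        rw [mem_sv]
        exact ⟨hy, h⟩
      rw [hcon] at this
      simp at this
  have hc : Cl h4 (insert u A) := by
    intro x hx y hy hxy
    rw [mem_insert] at hx hy
    rcases hx with rfl | hx <;> rcases hy with rfl | hy
    · exact absurd rfl hxy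
    · exact hnb y hy
    · exact (hnb x hx).symm
    · exact hA.cl x hx y hy hxy
  have h2 := hA.max _ hc
  rw [card_insert_of_notMem hu.2] at h2
  omega

end Run7.h111
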