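import Pool.Agent.Run7.h111.TExist
import Pool.Agent.Helper932.SplitPrimes

/-! The asymptotic form of the lower bound by torsion progressions, and the size of the class of
primes to which it applies. -/

set_option autoImplicit false

open Finset Polynomial

namespace Run7.h111

/-- the class of primes: `p ≡ 1 mod 4`, `N ∣ p - 1`, and `1 - h` is a square for all `h^N = 1` -/
def TCls (N p : ℕ) : Prop :=
  p.Prime ∧ p % 4 = 1 ∧ N ∣ p - 1 ∧ ∀ h : ZMod p, h ^ N = 1 → IsSquare (1 - h)

lemma exp_cube {x : ℝ} (hx : 0 ≤ x) : 1 + x ^ 3 / 6 ≤ Real.exp x := by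
  have h := Real.sum_le_exp_of_nonneg hx 4
  simp only [Finset.sum_range_succ, Finset.sum_range_zero, Nat.factorial] at h
  norm_num at h
  nlinarith [sq_nonneg x]

lemma exp_sq {x : ℝ} (hx : 0 ≤ x) : 1 + x ^ 2 / 2 ≤ Real.exp x := by
  have h := Real.sum_le_exp_of_nonneg hx 3
  simp only [Finset.sum_range_succ, Finset.sum_range_zero, Nat.factorial] at h
  norm_num at h
  linarith

/-- large cliques for large primes of the class -/
lemma torsion_asym {N : ℕ} (hN : 0 < N) {ε : ℝ} (hε : 0 < ε) (hε1 : ε < 1) :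
    ∃ P : ℕ, ∀ p : ℕ, TCls N p → P ≤ p → ∀ (_ : Fact p.Prime) (h4 : p % 4 = 1),
      ∃ A : Finset (ZMod p), Cl h4 A ∧ 0 < A.card ∧
        (1 - ε) * (jf N)⁻¹ * (Real.log p / (2 * Real.log 2)) ≤ (A.card : ℝ) - 1 := by
  have hj := jf_pos N
  have hl2 : 0 < Real.log 2 := Real.log_pos (by norm_num)
  have hNr : (0 : ℝ) < N := by exact_mod_cast hN
  set B : ℝ := (N : ℝ) ^ 2 * jf N with hB
  have hBpos : 0 < B := by positivity
  set κ : ℝ := (1 - ε / 2) / (2 * B * Real.log 2) with hκ
  have hκpos : 0 < κ := by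
    apply div_pos (by linarith) (by positivity)
  set L₀ : ℝ := 6 * (4 * N * B * κ ^ 2) / (ε / 4) ^ 3 + 2 * N * κ +
    (N : ℝ) ^ 2 * (jf N * (2 * Real.log 2)) / (ε / 2) + 1 with hL₀
  have ht1 : 0 ≤ 6 * (4 * N * B * κ ^ 2) / (ε / 4) ^ 3 := by positivity
  have ht2 : 0 ≤ 2 * N * κ := by positivity
  have ht3 : 0 ≤ (N : ℝ) ^ 2 * (jf N * (2 * Real.log 2)) / (ε / 2) := by positivity
  refine ⟨⌈Real.exp L₀⌉₊, ?_⟩
  intro p hcls hPp hfact h4
  obtain ⟨hp, -, hdvd, hsq⟩ := hcls
  have hp0 : (0 : ℝ) < p := by exact_mod_cast hp.pos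
  set L : ℝ := Real.log p with hL
  have hLL : L₀ ≤ L := by
    rw [hL, Real.le_log_iff_exp_le hp0]
    exact (Nat.le_ceil _).trans (by exact_mod_cast hPp)
  have hexpL : Real.exp L = p := Real.exp_log hp0
  have hLpos : 0 < L := by linarith
  -- a primitive root of unity
  obtain ⟨g, hg⟩ : ∃ g : ZMod p, IsPrimitiveRoot g N := by
    obtain ⟨u, hu⟩ := IsCyclic.exists_generator (α := (ZMod p)ˣ)
    have ho : orderOf u = p - 1 := by
      rw [orderOf_eq_card_of_forall_mem_zpowers hu, Nat.card_eq_fintype_card, ZMod.card_units]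
    obtain ⟨m, hm⟩ := hdvd
    have hm0 : 0 < p - 1 := by have := hp.two_le; omega
    refine ⟨((u ^ m : (ZMod p)ˣ) : ZMod p), ?_⟩
    rw [IsPrimitiveRoot.coe_units_iff]
    have h1 : IsPrimitiveRoot u (p - 1) := by
      rw [← ho]
      exact IsPrimitiveRoot.orderOf u
    exact h1.pow hm0 (by rw [hm]; ring)
  set c : ℕ := ⌊κ * L⌋₊ with hc
  have hc1 : (c : ℝ) ≤ κ * L := Nat.floor_le (by positivity)
  have hc2 : κ * L < c + 1 := Nat.lt_floor_add_one _
  have hcard := prim_card N c
  have hcard2 : ((prim N c).card : ℝ) = c * B := by rw [hcard, hB]; ring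
  have hNc : N * c < p := by
    have h1 : (N : ℝ) * c < p := by
      rw [← hexpL]
      have h2 := exp_sq hLpos.le
      have h3 : (N : ℝ) * c ≤ N * (κ * L) := mul_le_mul_of_nonneg_left hc1 hNr.le
      have h5 : 2 * N * κ ≤ L := by linarith
      have h6 : 2 * N * κ * L ≤ L * L := mul_le_mul_of_nonneg_right h5 hLpos.le
      nlinarith
    exact_mod_cast h1
  have hbig : (2 : ℝ) ^ (prim N c).card * (2 * (2 * (N * c) * (prim N c).card) + 1) ≤
      Real.sqrt p := by
    have h1 : Real.sqrt p = Real.exp ((1 - ε / 2) * L / 2) * Real.exp (ε / 4 * L) := by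
      rw [← Real.exp_add]
      have h2 : (p : ℝ) = Real.exp (L / 2) ^ 2 := by
        rw [← Real.exp_nat_mul, ← hexpL]
        congr 1
        push_cast
        ring
      rw [h2, Real.sqrt_sq (Real.exp_pos _).le]
      congr 1
      ring
    rw [h1]
    apply mul_le_mul
    · have h2 : (2 : ℝ) ^ (prim N c).card = Real.exp ((prim N c).card * Real.log 2) := by
        rw [mul_comm, Real.exp_mul, Real.exp_log (by norm_num), Real.rpow_natCast]
      rw [h2, Real.exp_le_exp, hcard2]
      have h3 : (c : ℝ) * B * Real.log 2 ≤ κ * L * B * Real.log 2 := by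
        apply mul_le_mul_of_nonneg_right _ hl2.le
        exact mul_le_mul_of_nonneg_right hc1 hBpos.le
      have h5 : κ * L * B * Real.log 2 = (1 - ε / 2) * L / 2 := by
        rw [hκ]
        field_simp
      linarith
    · rw [hcard2]
      have h2 := exp_cube (x := ε / 4 * L) (by positivity)
      have h3 : (c : ℝ) ^ 2 ≤ (κ * L) ^ 2 := pow_le_pow_left₀ (by positivity) hc1 2
      have h5 : 2 * (2 * ((N : ℝ) * c) * (c * B)) ≤ (ε / 4 * L) ^ 3 / 6 := by
        have h6 : 2 * (2 * ((N : ℝ) * c) * (c * B)) = 4 * N * B * (c : ℝ) ^ 2 := by ring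
        have h7 : 4 * N * B * (c : ℝ) ^ 2 ≤ 4 * N * B * (κ * L) ^ 2 :=
          mul_le_mul_of_nonneg_left h3 (by positivity)
        have h8 : 6 * (4 * N * B * κ ^ 2) / (ε / 4) ^ 3 ≤ L := by linarith
        rw [div_le_iff₀ (by positivity)] at h8
        have h9 : 6 * (4 * N * B * κ ^ 2) * L ^ 2 ≤ L * (ε / 4) ^ 3 * L ^ 2 :=
          mul_le_mul_of_nonneg_right h8 (by positivity)
        rw [h6]
        nlinarith
      linarith
    · positivity
    · positivity
  obtain ⟨A, hA1, hA2⟩ := exists_clique h4 hN hg hsq hNc hbig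
  refine ⟨A, hA2, by omega, ?_⟩
  have h1 : (A.card : ℝ) - 1 = N * (N * c + 1) := by
    rw [hA1]
    push_cast
    ring
  rw [h1]
  have h2 : (N : ℝ) ^ 2 * (κ * L - 1) ≤ N * (N * c + 1) := by
    have h3 : κ * L - 1 ≤ c := by linarith
    have h5 : (N : ℝ) ^ 2 * (κ * L - 1) ≤ (N : ℝ) ^ 2 * c :=
      mul_le_mul_of_nonneg_left h3 (by positivity)
    nlinarith
  refine le_trans ?_ h2
  have h3 : (N : ℝ) ^ 2 * (κ * L) = (1 - ε / 2) * (jf N)⁻¹ * (L / (2 * Real.log 2)) := by
    rw [hκ, hB]
    field_simp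
  have h5 : (N : ℝ) ^ 2 ≤ ε / 2 * (jf N)⁻¹ * (L / (2 * Real.log 2)) := by
    have h6 : (N : ℝ) ^ 2 * (jf N * (2 * Real.log 2)) / (ε / 2) ≤ L := by linarith
    rw [div_le_iff₀ (by positivity)] at h6
    have h7 : ε / 2 * (jf N)⁻¹ * (L / (2 * Real.log 2)) =
        L * (ε / 2) / (jf N * (2 * Real.log 2)) := by
      field_simp
    rw [h7, le_div_iff₀ (by positivity)]
    exact h6
  rw [mul_sub, mul_one, h3]
  linarith

open NumberField in
/-- the class of primes is not thin: the sum of the reciprocals of its members diverges -/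
lemma tcls_not_summable {N : ℕ} (hN : 0 < N) :
    ¬ Summable (fun p : {p : ℕ | TCls N p} => (1 : ℝ) / ((p : ℕ) : ℝ)) := by
  classical
  have he : 0 < 4 * N := by omega
  have hζ : IsPrimitiveRoot (Complex.exp (2 * Real.pi * Complex.I / (4 * N : ℕ))) (4 * N) :=
    Complex.isPrimitiveRoot_exp _ he.ne'
  generalize Complex.exp (2 * Real.pi * Complex.I / (4 * N : ℕ)) = ζ at hζ
  have hw0 : ∀ j : ℕ, ∃ w : ℂ, w ^ 2 = 1 - ζ ^ (4 * j) :=
    fun j => IsAlgClosed.exists_pow_nat_eq _ (by norm_num)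
  choose w hw using hw0
  have hζint : IsIntegral ℤ ζ := hζ.isIntegral he
  have hwint : ∀ j, IsIntegral ℤ (w j) := by
    intro j
    refine IsIntegral.of_pow (n := 2) (by norm_num) ?_
    rw [hw]
    exact isIntegral_one.sub (hζint.pow _)
  set S : Finset ℂ := insert ζ ((range N).image w) with hS
  let K := IntermediateField.adjoin ℚ (S : Set ℂ)
  have hSint : ∀ x ∈ (S : Set ℂ), IsIntegral ℚ x := by
    intro x hx
    rw [Finset.mem_coe, hS, mem_insert, mem_image] at hx
    rcases hx with rfl | ⟨j, -, rfl⟩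
    · exact hζint.tower_top
    · exact (hwint j).tower_top
  have hfd : FiniteDimensional ℚ K :=
    IntermediateField.finiteDimensional_adjoin hSint
  have hnf : NumberField K := { to_charZero := inferInstance, to_finiteDimensional := hfd }
  have hζK : ζ ∈ K := IntermediateField.subset_adjoin ℚ _ (by simp [hS])
  have hwK : ∀ j < N, w j ∈ K := fun j hj =>
    IntermediateField.subset_adjoin ℚ _ (by
      rw [Finset.mem_coe, hS, mem_insert, mem_image]
      exact Or.inr ⟨j, mem_range.2 hj, rfl⟩)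
  have hintK : ∀ x : K, IsIntegral ℤ (x : ℂ) → IsIntegral ℤ x := by
    intro x hx
    exact (isIntegral_algHom_iff (K.val.restrictScalars ℤ) Subtype.val_injective).1 hx
  let zO : 𝓞 K := ⟨⟨ζ, hζK⟩, hintK _ hζint⟩
  have hzO : IsPrimitiveRoot zO (4 * N) := by
    have h1 : Function.Injective (fun x : 𝓞 K => ((x : K) : ℂ)) :=
      fun a b h => RingOfIntegers.coe_injective (Subtype.val_injective h)
    have h2 : Function.Injective ((algebraMap K ℂ).comp (algebraMap (𝓞 K) K)) := h1
    exact IsPrimitiveRoot.of_map_of_injective (f := (algebraMap K ℂ).comp (algebraMap (𝓞 K) K))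
      hζ h2
  have hwO : ∀ j < N, ∃ v : 𝓞 K, v ^ 2 = 1 - zO ^ (4 * j) := by
    intro j hj
    refine ⟨⟨⟨w j, hwK j hj⟩, hintK _ (hwint j)⟩, ?_⟩
    apply RingOfIntegers.coe_injective
    apply Subtype.val_injective
    exact hw j
  have hmain : ∀ p : ℕ, p.Prime → 4 * N < p → (𝓞 K →+* ZMod p) → TCls N p := by
    intro p hp hlt φ
    have hfact : Fact p.Prime := ⟨hp⟩
    have hne : NeZero ((4 * N : ℕ) : ZMod p) := ⟨by
      rw [Ne, ZMod.natCast_eq_zero_iff]
      intro h
      exact absurd (Nat.le_of_dvd he h) (not_le.mpr hlt)⟩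
    have hroot := (hzO.isRoot_cyclotomic he).map (f := φ)
    rw [Polynomial.map_cyclotomic, Polynomial.isRoot_cyclotomic_iff] at hroot
    have hdvd : 4 * N ∣ p - 1 := hroot.dvd_of_pow_eq_one _
      (ZMod.pow_card_sub_one_eq_one (hroot.ne_zero he.ne'))
    have hp1 := hp.two_le
    refine ⟨hp, ?_, (Dvd.intro_left 4 rfl).trans hdvd, ?_⟩
    · obtain ⟨m, hm⟩ := hdvd
      have : p = 4 * (N * m) + 1 := by
        rw [← mul_assoc]
        omega
      omega
    · intro h hh
      have hg : IsPrimitiveRoot (φ zO ^ 4) N := hroot.pow he (by ring)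
      have hN0 : NeZero N := ⟨hN.ne'⟩
      obtain ⟨i, hi, hi2⟩ := hg.eq_pow_of_pow_eq_one hh
      obtain ⟨v, hv⟩ := hwO i hi
      refine ⟨φ v, ?_⟩
      rw [← sq, ← map_pow, hv, map_sub, map_one, map_pow, ← hi2, pow_mul]
  intro hs
  refine Pool.Agent.Helper932.not_summable_split (K := K) ?_
  set f : ℕ → ℝ := fun p => 1 / (p : ℝ) with hf
  have hs1 : Summable ({p : ℕ | TCls N p}.indicator f) := by
    rw [← summable_subtype_iff_indicator]
    exact hs
  have hs2 : Summable ((Set.Iic (4 * N)).indicator f) := by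
    rw [← summable_subtype_iff_indicator]
    have : Finite (Set.Iic (4 * N)) := (Set.finite_Iic (4 * N)).to_subtype
    exact Summable.of_finite
  have hs3 : Summable ({p : ℕ | p.Prime ∧ Nonempty (𝓞 K →+* ZMod p)}.indicator f) := by
    refine Summable.of_nonneg_of_le ?_ ?_ (hs1.add hs2)
    · intro p
      apply Set.indicator_nonneg
      intro x _
      simp only [hf]
      positivity
    · intro p
      have hfp : 0 ≤ f p := by
        simp only [hf]
        positivity
      by_cases hp : p ∈ {p : ℕ | p.Prime ∧ Nonempty (𝓞 K →+* ZMod p)}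
      · rw [Set.indicator_of_mem hp]
        obtain ⟨hp1, ⟨φ⟩⟩ := hp
        rcases Nat.lt_or_ge (4 * N) p with h | h
        · rw [Set.indicator_of_mem (show p ∈ {p : ℕ | TCls N p} from hmain p hp1 h φ)]
          have : 0 ≤ (Set.Iic (4 * N)).indicator f p :=
            Set.indicator_nonneg (fun x _ => by simp only [hf]; positivity) _
          linarith
        · rw [Set.indicator_of_mem (show p ∈ Set.Iic (4 * N) from h)]
          have : 0 ≤ ({p : ℕ | TCls N p}.indicator f) p :=
            Set.indicator_nonneg (fun x _ => by simp only [hf]; positivity) _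
          linarith
      · rw [Set.indicator_of_notMem hp]
        have h1 : 0 ≤ (Set.Iic (4 * N)).indicator f p :=
          Set.indicator_nonneg (fun x _ => by simp only [hf]; positivity) _
        have h2 : 0 ≤ ({p : ℕ | TCls N p}.indicator f) p :=
          Set.indicator_nonneg (fun x _ => by simp only [hf]; positivity) _
        linarith
  rw [← summable_subtype_iff_indicator] at hs3
  exact hs3

end Run7.h111
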