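import Mathlib

/-! Counting the pairs `(d, s)` modulo `N` with `gcd (d, s, N) = 1` (Jordan's totient), and the
elementary lemma on coprime representatives. -/

set_option autoImplicit false

open Finset

namespace Run7.h111

/-- pairs `(d, s)`, `1 ≤ d ≤ N c`, `1 ≤ s ≤ N`, not both divisible by a common prime factor of `N` -/
def prim (N c : ℕ) : Finset (ℕ × ℕ) :=
  (Ioc 0 (N * c) ×ˢ Ioc 0 N).filter (fun q => ∀ l ∈ N.primeFactors, ¬ (l ∣ q.1 ∧ l ∣ q.2))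

lemma mem_prim {N c : ℕ} {q : ℕ × ℕ} : q ∈ prim N c ↔
    (0 < q.1 ∧ q.1 ≤ N * c) ∧ (0 < q.2 ∧ q.2 ≤ N) ∧
      ∀ l ∈ N.primeFactors, ¬ (l ∣ q.1 ∧ l ∣ q.2) := by
  unfold prim
  simp only [mem_filter, mem_product, mem_Ioc]
  tauto

/-- `∏ (1 - 1/l^2)` over the primes dividing `N` -/
noncomputable def jf (N : ℕ) : ℝ := ∏ l ∈ N.primeFactors, (1 - 1 / (l : ℝ) ^ 2)

lemma jf_pos (N : ℕ) : 0 < jf N := by
  unfold jf
  refine Finset.prod_pos ?_
  intro l hl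
  have h2 : 2 ≤ l := (Nat.prime_of_mem_primeFactors hl).two_le
  have h3 : (2 : ℝ) ≤ l := by exact_mod_cast h2
  have h4 : (1 : ℝ) < (l : ℝ) ^ 2 := by nlinarith
  have h5 : 1 / (l : ℝ) ^ 2 < 1 := by
    rw [div_lt_one (by positivity)]
    exact h4
  linarith

lemma prim_card (N c : ℕ) : ((prim N c).card : ℝ) = c * (N : ℝ) ^ 2 * jf N := by
  classical
  rcases Nat.eq_zero_or_pos N with hN | hN
  · subst hN
    simp [prim]
  have hN0 : (N : ℝ) ≠ 0 := by exact_mod_cast hN.ne'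
  have hdiv : ∀ T ∈ N.primeFactors.powerset, ∀ a : ℕ,
      (∏ l ∈ T, l ∣ a) ↔ ∀ l ∈ T, l ∣ a := by
    intro T hT a
    rw [mem_powerset] at hT
    constructor
    · intro h l hl
      exact (Finset.dvd_prod_of_mem (fun l => l) hl).trans h
    · intro h
      exact Finset.prod_primes_dvd a
        (fun l hl => (Nat.prime_of_mem_primeFactors (hT hl)).prime) h
  have hind : ∀ q : ℕ × ℕ, (if ∀ l ∈ N.primeFactors, ¬ (l ∣ q.1 ∧ l ∣ q.2) then (1 : ℝ) else 0) =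
      ∑ T ∈ N.primeFactors.powerset, (-1 : ℝ) ^ T.card *
        ((if ∏ l ∈ T, l ∣ q.1 then (1 : ℝ) else 0) * (if ∏ l ∈ T, l ∣ q.2 then 1 else 0)) := by
    intro q
    have h1 : (if ∀ l ∈ N.primeFactors, ¬ (l ∣ q.1 ∧ l ∣ q.2) then (1 : ℝ) else 0) =
        ∏ l ∈ N.primeFactors, (1 + (-1) * if (l ∣ q.1 ∧ l ∣ q.2) then (1 : ℝ) else 0) := by
      by_cases h : ∀ l ∈ N.primeFactors, ¬ (l ∣ q.1 ∧ l ∣ q.2)
      · rw [if_pos h]
        symm
        apply Finset.prod_eq_one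
        intro l hl
        rw [if_neg (h l hl)]
        ring
      · rw [if_neg h]
        symm
        push Not at h
        obtain ⟨l, hl, h⟩ := h
        exact Finset.prod_eq_zero hl (by rw [if_pos h]; ring)
    rw [h1, Finset.prod_one_add]
    apply Finset.sum_congr rfl
    intro T hT
    rw [Finset.prod_mul_distrib, Finset.prod_const]
    congr 1
    by_cases h : (∏ l ∈ T, l ∣ q.1) ∧ (∏ l ∈ T, l ∣ q.2)
    · rw [if_pos h.1, if_pos h.2, mul_one]
      apply Finset.prod_eq_one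
      intro l hl
      rw [if_pos ⟨(hdiv T hT _).1 h.1 l hl, (hdiv T hT _).1 h.2 l hl⟩]
    · have h3 : ((if ∏ l ∈ T, l ∣ q.1 then (1 : ℝ) else 0) *
          (if ∏ l ∈ T, l ∣ q.2 then 1 else 0)) = 0 := by
        by_cases h4 : ∏ l ∈ T, l ∣ q.1
        · rw [if_neg (fun h5 => h ⟨h4, h5⟩), mul_zero]
        · rw [if_neg h4, zero_mul]
      rw [h3]
      rw [hdiv T hT, hdiv T hT] at h
      have : ∃ l ∈ T, ¬ (l ∣ q.1 ∧ l ∣ q.2) := by
        by_contra hcon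
        push Not at hcon
        exact h ⟨fun l hl => (hcon l hl).1, fun l hl => (hcon l hl).2⟩
      obtain ⟨l, hl, h2⟩ := this
      exact Finset.prod_eq_zero hl (by rw [if_neg h2])
  have hcnt : ∀ T ∈ N.primeFactors.powerset, ∀ k : ℕ,
      ∑ a ∈ Ioc 0 (N * k), (if ∏ l ∈ T, l ∣ a then (1 : ℝ) else 0) = N * k / ∏ l ∈ T, (l : ℝ) := by
    intro T hT k
    rw [← Finset.sum_filter, Finset.sum_const, Nat.Ioc_filter_dvd_card_eq_div, nsmul_eq_mul, mul_one]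
    have hd : ∏ l ∈ T, l ∣ N := by
      rw [mem_powerset] at hT
      exact (hdiv T (mem_powerset.2 hT) N).2
        (fun l hl => Nat.dvd_of_mem_primeFactors (hT hl))
    rw [Nat.cast_div (hd.trans (dvd_mul_right _ _))]
    · push_cast
      rfl
    · rw [mem_powerset] at hT
      push_cast
      exact Finset.prod_ne_zero_iff.2
        (fun l hl => by exact_mod_cast (Nat.prime_of_mem_primeFactors (hT hl)).ne_zero)
  have h1 : ((prim N c).card : ℝ) = ∑ a ∈ Ioc 0 (N * c), ∑ b ∈ Ioc 0 N,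
      (if ∀ l ∈ N.primeFactors, ¬ (l ∣ a ∧ l ∣ b) then (1 : ℝ) else 0) := by
    unfold prim
    rw [Finset.card_filter, Finset.sum_product]
    push_cast
    rfl
  rw [h1]
  have h2 : ∀ a b : ℕ, (if ∀ l ∈ N.primeFactors, ¬ (l ∣ a ∧ l ∣ b) then (1 : ℝ) else 0) =
      ∑ T ∈ N.primeFactors.powerset, (-1 : ℝ) ^ T.card *
        ((if ∏ l ∈ T, l ∣ a then (1 : ℝ) else 0) * (if ∏ l ∈ T, l ∣ b then 1 else 0)) :=
    fun a b => hind (a, b)
  simp_rw [h2]
  have h3 : ∀ a : ℕ, ∑ b ∈ Ioc 0 N, ∑ T ∈ N.primeFactors.powerset, (-1 : ℝ) ^ T.card *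
        ((if ∏ l ∈ T, l ∣ a then (1 : ℝ) else 0) * (if ∏ l ∈ T, l ∣ b then 1 else 0)) =
      ∑ T ∈ N.primeFactors.powerset, (-1 : ℝ) ^ T.card *
        ((if ∏ l ∈ T, l ∣ a then (1 : ℝ) else 0) * (N / ∏ l ∈ T, (l : ℝ))) := by
    intro a
    rw [Finset.sum_comm]
    apply Finset.sum_congr rfl
    intro T hT
    rw [← Finset.mul_sum, ← Finset.mul_sum]
    have := hcnt T hT 1
    rw [mul_one, Nat.cast_one, mul_one] at this
    rw [this]
  simp_rw [h3]
  rw [Finset.sum_comm]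
  have h4 : ∀ T ∈ N.primeFactors.powerset, ∑ a ∈ Ioc 0 (N * c), (-1 : ℝ) ^ T.card *
        ((if ∏ l ∈ T, l ∣ a then (1 : ℝ) else 0) * (N / ∏ l ∈ T, (l : ℝ))) =
      c * (N : ℝ) ^ 2 * ∏ l ∈ T, (-(1 / (l : ℝ) ^ 2)) := by
    intro T hT
    rw [← Finset.mul_sum, ← Finset.sum_mul, hcnt T hT c]
    have h5 : ∏ l ∈ T, (-(1 / (l : ℝ) ^ 2)) = (-1) ^ T.card * (1 / (∏ l ∈ T, (l : ℝ)) ^ 2) := by
      rw [← Finset.prod_pow, ← Finset.prod_const, one_div, ← Finset.prod_inv_distrib,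
        ← Finset.prod_mul_distrib]
      apply Finset.prod_congr rfl
      intro l _
      ring
    rw [h5]
    have h6 : ∏ l ∈ T, (l : ℝ) ≠ 0 := by
      rw [mem_powerset] at hT
      exact Finset.prod_ne_zero_iff.2
        (fun l hl => by exact_mod_cast (Nat.prime_of_mem_primeFactors (hT hl)).ne_zero)
    field_simp
  rw [Finset.sum_congr rfl h4, ← Finset.mul_sum, ← Finset.prod_one_add]
  unfold jf
  congr 1

/-- a representative of `s mod N` coprime to `d`, when no prime divides `N`, `d` and `s` -/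
lemma exists_coprime_rep (N d s : ℕ) (hd : 0 < d)
    (h : ∀ q : ℕ, q.Prime → q ∣ N → q ∣ d → ¬ q ∣ s) : ∃ j : ℕ, Nat.Coprime (s + N * j) d := by
  classical
  refine ⟨∏ q ∈ d.primeFactors.filter (fun q => ¬ q ∣ s), q, ?_⟩
  rw [Nat.coprime_iff_gcd_eq_one]
  by_contra hne
  obtain ⟨q, hq, hqg⟩ := Nat.exists_prime_and_dvd hne
  have hqd : q ∣ d := hqg.trans (Nat.gcd_dvd_right _ _)
  have hqs : q ∣ s + N * ∏ q ∈ d.primeFactors.filter (fun q => ¬ q ∣ s), q :=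
    hqg.trans (Nat.gcd_dvd_left _ _)
  by_cases hs : q ∣ s
  · have h1 : q ∣ N * ∏ q ∈ d.primeFactors.filter (fun q => ¬ q ∣ s), q :=
      (Nat.dvd_add_right hs).1 hqs
    rcases hq.dvd_mul.1 h1 with h2 | h2
    · exact h q hq h2 hqd hs
    · obtain ⟨r, hr, hqr⟩ := (hq.prime.dvd_finsetProd_iff _).1 h2
      rw [mem_filter] at hr
      have h3 := (Nat.prime_dvd_prime_iff_eq hq (Nat.prime_of_mem_primeFactors hr.1)).1 hqr
      rw [← h3] at hr
      exact hr.2 hs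
  · have h1 : q ∣ ∏ q ∈ d.primeFactors.filter (fun q => ¬ q ∣ s), q := by
      apply Finset.dvd_prod_of_mem (fun q => q)
      rw [mem_filter]
      exact ⟨Nat.mem_primeFactors.2 ⟨hq, hqd, hd.ne'⟩, hs⟩
    exact hs ((Nat.dvd_add_left (h1.mul_left N)).1 hqs)

end Run7.h111
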