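import Pool.Agent.Run7.h111.TFact
import Pool.Agent.Run7.h111.Lift

/-! Existence of the ratio `y^2` of a torsion progression (by Weil's bound), and the resulting
clique of the Paley graph. -/

set_option autoImplicit false

open Finset Polynomial

namespace Run7.h111

variable {p : ℕ} [Fact p.Prime]

/-- Weil's bound and counting: some `y ≠ 0` satisfies all the conditions -/
lemma exists_good (h4 : p % 4 = 1) {g : ZMod p} {N c : ℕ} (hN : 0 < N) (hg : IsPrimitiveRoot g N)
    (hc : N * c < p) (I : Finset (ℕ × ℕ)) (hI : I ⊆ prim N c)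
    (hbig : (2 : ℝ) ^ I.card * (2 * (2 * (N * c) * I.card) + 1) ≤ Real.sqrt p) :
    ∃ y : ZMod p, y ≠ 0 ∧ ∀ q ∈ I, quadraticChar (ZMod p) ((y ^ 2) ^ q.1 - g ^ q.2) = 1 := by
  classical
  by_contra hcon
  push Not at hcon
  have hp2 : p ≠ 2 := by
    rintro rfl
    omega
  have hpp : p.Prime := Fact.out
  set D : ℝ := 2 * (N * c) * I.card with hD
  have hD0 : 0 ≤ D := by positivity
  set χ : ZMod p → ℝ := fun a => (quadraticChar (ZMod p) a : ℝ) with hχ
  have hχmul : ∀ a b, χ (a * b) = χ a * χ b := by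
    intro a b
    simp only [hχ]
    rw [map_mul]
    push_cast
    rfl
  have hχle : ∀ a, χ a ≤ 1 := by
    intro a
    simp only [hχ]
    by_cases ha : a = 0
    · subst ha
      simp
    · rcases quadraticChar_dichotomy ha with h | h <;> rw [h] <;> norm_num
  have hχge : ∀ a, -1 ≤ χ a := by
    intro a
    simp only [hχ]
    by_cases ha : a = 0
    · subst ha
      simp
    · rcases quadraticChar_dichotomy ha with h | h <;> rw [h] <;> norm_num
  -- the weight
  set W : ZMod p → ℝ := fun y => ∏ q ∈ I, (1 + χ ((fpol g q).eval y)) with hW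
  have hWle : ∀ y, W y ≤ 2 ^ I.card := by
    intro y
    simp only [hW]
    rw [← Finset.prod_const]
    apply Finset.prod_le_prod
    · intro q _
      linarith [hχge ((fpol g q).eval y)]
    · intro q _
      linarith [hχle ((fpol g q).eval y)]
  have hdegT : ∀ T ⊆ I, ((∏ q ∈ T, fpol g q).natDegree : ℝ) ≤ D := by
    intro T hT
    rw [natDegree_prod_of_monic _ _ (fun q hq => fpol_monic g (mem_prim.1 (hI (hT hq))).1.1)]
    have h1 : ∑ q ∈ T, (fpol g q).natDegree ≤ ∑ _q ∈ T, 2 * (N * c) := by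
      apply Finset.sum_le_sum
      intro q hq
      rw [fpol_natDegree]
      have := (mem_prim.1 (hI (hT hq))).1.2
      omega
    rw [Finset.sum_const, smul_eq_mul] at h1
    have h2 : T.card ≤ I.card := Finset.card_le_card hT
    have h3 : T.card * (2 * (N * c)) ≤ I.card * (2 * (N * c)) := Nat.mul_le_mul_right _ h2
    have h4 : ((∑ q ∈ T, (fpol g q).natDegree : ℕ) : ℝ) ≤ ((I.card * (2 * (N * c)) : ℕ) : ℝ) := by
      exact_mod_cast h1.trans h3
    refine h4.trans (le_of_eq ?_)
    rw [hD]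
    push_cast
    ring
  -- lower bound for the total weight
  have hlow : (p : ℝ) - 2 ^ I.card * (D * Real.sqrt p) ≤ ∑ y : ZMod p, W y := by
    have h1 : ∑ y : ZMod p, W y =
        ∑ T ∈ I.powerset, ∑ y : ZMod p, χ ((∏ q ∈ T, fpol g q).eval y) := by
      simp only [hW]
      simp_rw [Finset.prod_one_add]
      rw [Finset.sum_comm]
      apply Finset.sum_congr rfl
      intro T _
      apply Finset.sum_congr rfl
      intro y _
      rw [eval_prod]
      simp only [hχ]
      rw [map_prod]
      push_cast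
      rfl
    rw [h1, ← Finset.sum_erase_add _ _ (Finset.empty_mem_powerset I)]
    have h2 : ∑ y : ZMod p, χ ((∏ q ∈ (∅ : Finset (ℕ × ℕ)), fpol g q).eval y) = p := by
      simp [hχ]
    rw [h2]
    have h3 : ∀ T ∈ I.powerset.erase ∅,
        -(D * Real.sqrt p) ≤ ∑ y : ZMod p, χ ((∏ q ∈ T, fpol g q).eval y) := by
      intro T hT
      rw [mem_erase, mem_powerset] at hT
      obtain ⟨hne, hTI⟩ := hT
      have hne' : T.Nonempty := Finset.nonempty_iff_ne_empty.2 hne
      have hd : 1 ≤ (∏ q ∈ T, fpol g q).natDegree := by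
        rw [natDegree_prod_of_monic _ _ (fun q hq => fpol_monic g (mem_prim.1 (hI (hTI hq))).1.1)]
        obtain ⟨q, hq⟩ := hne'
        have h5 := Finset.single_le_sum (f := fun q => (fpol g q).natDegree)
          (fun q _ => Nat.zero_le _) hq
        have h6 := (mem_prim.1 (hI (hTI hq))).1.1
        simp only [fpol_natDegree] at h5 ⊢
        omega
      have hw := Pool.Agent.H341R2.Sharp.weil_sharp (ringChar_ne_two h4) (∏ q ∈ T, fpol g q) hd
        (prod_ne_sq p hp2 hN hg hc T (hTI.trans hI) hne')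
      rw [ZMod.card] at hw
      have h7 := (abs_le.1 hw).1
      have h8 : ((∏ q ∈ T, fpol g q).natDegree - 1 : ℝ) * Real.sqrt p ≤ D * Real.sqrt p := by
        apply mul_le_mul_of_nonneg_right _ (Real.sqrt_nonneg _)
        have := hdegT T hTI
        linarith
      simp only [hχ]
      linarith
    have h5 : -(2 ^ I.card * (D * Real.sqrt p)) ≤
        ∑ T ∈ I.powerset.erase ∅, ∑ y : ZMod p, χ ((∏ q ∈ T, fpol g q).eval y) := by
      refine le_trans ?_ (Finset.sum_le_sum h3)
      rw [Finset.sum_const, nsmul_eq_mul]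
      have h6 : ((I.powerset.erase ∅).card : ℝ) ≤ 2 ^ I.card := by
        have h7 : (I.powerset.erase ∅).card ≤ I.powerset.card := Finset.card_erase_le
        rw [Finset.card_powerset] at h7
        exact_mod_cast h7
      have h8 : 0 ≤ D * Real.sqrt p := by positivity
      nlinarith
    linarith
  -- upper bound for the total weight
  set Z : Finset (ZMod p) := insert 0 ((∏ q ∈ I, fpol g q).roots.toFinset) with hZ
  have hmonI : (∏ q ∈ I, fpol g q).Monic :=
    monic_prod_of_monic _ _ (fun q hq => fpol_monic g (mem_prim.1 (hI hq)).1.1)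
  have hZcard : (Z.card : ℝ) ≤ D + 1 := by
    have h1 : Z.card ≤ (∏ q ∈ I, fpol g q).roots.toFinset.card + 1 := Finset.card_insert_le _ _
    have h2 : (∏ q ∈ I, fpol g q).roots.toFinset.card ≤ (∏ q ∈ I, fpol g q).natDegree :=
      (Multiset.toFinset_card_le _).trans (card_roots' _)
    have h3 := hdegT I (Finset.Subset.refl _)
    have h4 : (Z.card : ℝ) ≤ ((∏ q ∈ I, fpol g q).natDegree : ℝ) + 1 := by
      exact_mod_cast h1.trans (Nat.add_le_add_right h2 1)
    linarith
  have hup : ∑ y : ZMod p, W y ≤ 2 ^ I.card * (D + 1) := by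
    have h1 : ∑ y : ZMod p, W y = ∑ y ∈ Z, W y := by
      symm
      apply Finset.sum_subset (Finset.subset_univ _)
      intro y _ hyZ
      rw [hZ, mem_insert, not_or] at hyZ
      obtain ⟨q, hq, hne⟩ := hcon y hyZ.1
      simp only [hW]
      apply Finset.prod_eq_zero hq
      have h2 : (fpol g q).eval y ≠ 0 := by
        intro h0
        apply hyZ.2
        rw [Multiset.mem_toFinset, mem_roots hmonI.ne_zero]
        unfold IsRoot
        rw [eval_prod]
        exact Finset.prod_eq_zero hq h0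
      rw [← fpol_eval] at hne
      rcases quadraticChar_dichotomy h2 with h | h
      · exact absurd h hne
      · simp only [hχ]
        rw [h]
        norm_num
    rw [h1]
    calc ∑ y ∈ Z, W y ≤ ∑ _y ∈ Z, (2 : ℝ) ^ I.card := Finset.sum_le_sum (fun y _ => hWle y)
      _ = Z.card * 2 ^ I.card := by rw [Finset.sum_const, nsmul_eq_mul]
      _ ≤ (D + 1) * 2 ^ I.card := by
          apply mul_le_mul_of_nonneg_right hZcard (by positivity)
      _ = _ := by ring
  -- contradiction
  have hsq : Real.sqrt p * Real.sqrt p = p := Real.mul_self_sqrt (by positivity)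
  have hs1 : 1 < Real.sqrt p := by
    rw [Real.lt_sqrt (by norm_num)]
    have : 1 < p := hpp.one_lt
    have h2 : (1 : ℝ) < p := by exact_mod_cast this
    linarith
  have h1 : (2 : ℝ) ^ I.card * (2 * D + 1) * Real.sqrt p ≤ p := by
    have h3 := mul_le_mul_of_nonneg_right hbig (Real.sqrt_nonneg (p : ℝ))
    rw [hsq] at h3
    exact h3
  have hpow : (0 : ℝ) < 2 ^ I.card := by positivity
  have h2 : (2 : ℝ) ^ I.card * (D * Real.sqrt p) + 2 ^ I.card * (D + 1) <
      2 ^ I.card * (2 * D + 1) * Real.sqrt p := by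
    have h3 : D * Real.sqrt p + (D + 1) < (2 * D + 1) * Real.sqrt p := by nlinarith
    nlinarith
  linarith

/-- the clique `{0} ∪ {g^k y^(2j)}` -/
lemma exists_clique (h4 : p % 4 = 1) {g : ZMod p} {N c : ℕ} (hN : 0 < N)
    (hg : IsPrimitiveRoot g N) (hsq : ∀ h : ZMod p, h ^ N = 1 → IsSquare (1 - h))
    (hc : N * c < p)
    (hbig : (2 : ℝ) ^ (prim N c).card * (2 * (2 * (N * c) * (prim N c).card) + 1) ≤ Real.sqrt p) :
    ∃ A : Finset (ZMod p), A.card = N * (N * c + 1) + 1 ∧ Cl h4 A := by
  classical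
  have : NeZero N := ⟨hN.ne'⟩
  obtain ⟨y, hy0, hy⟩ := exists_good h4 hN hg hc (prim N c) (Finset.Subset.refl _) hbig
  set Q : ZMod p → Prop := fun a => quadraticChar (ZMod p) a = 1 with hQ
  have hQ1 : Q 1 := by simp [hQ]
  have hQmul : ∀ a b, Q a → Q b → Q (a * b) := by
    intro a b ha hb
    simp only [hQ] at ha hb ⊢
    rw [map_mul, ha, hb, one_mul]
  have hQsq : ∀ a : ZMod p, a ≠ 0 → IsSquare a → Q a := by
    intro a ha h
    exact (quadraticChar_one_iff_isSquare ha).2 h
  have hQpow : ∀ a, Q a → ∀ k : ℕ, Q (a ^ k) := by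
    intro a ha k
    simp only [hQ] at ha ⊢
    rw [map_pow, ha, one_pow]
  have hQneg : ∀ a, Q a → Q (-a) := by
    intro a ha
    have h1 : -a = (-1) * a := by ring
    simp only [hQ] at ha ⊢
    rw [h1, map_mul, ha, quadraticChar_neg_one (ringChar_ne_two h4), ZMod.card,
      ZMod.χ₄_nat_one_mod_four h4]
    rfl
  have hred := reduce_prim hN hg Q hQ1 hQmul (y ^ 2) c hy
  have hg0 : g ≠ 0 := hg.ne_zero hN.ne'
  have hx : Q (y ^ 2) := hQsq _ (pow_ne_zero _ hy0) ⟨y, sq y⟩
  -- `1 - h` and `h` are residues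
  have hone : ∀ h : ZMod p, h ^ N = 1 → h ≠ 1 → Q (1 - h) := by
    intro h hh hne
    exact hQsq _ (sub_ne_zero.2 (Ne.symm hne)) (hsq h hh)
  have hres : ∀ h : ZMod p, h ^ N = 1 → Q h := by
    intro h hh
    by_cases h1 : h = 1
    · rw [h1]
      exact hQ1
    · have hh0 : h ≠ 0 := by
        rintro rfl
        rw [zero_pow hN.ne'] at hh
        exact zero_ne_one hh
      have h2 : (h⁻¹) ^ N = 1 := by rw [inv_pow, hh, inv_one]
      have h3 : h⁻¹ ≠ 1 := by
        intro h4
        apply h1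
        rw [← inv_inv h, h4, inv_one]
      have h5 := hone h hh h1
      have h6 := hone _ h2 h3
      have h7 : (1 - h) = -(h * (1 - h⁻¹)) := by
        field_simp
        ring
      have h8 : Q (h * (1 - h⁻¹)) := by
        have := hQneg _ h5
        rw [h7, neg_neg] at this
        exact this
      simp only [hQ] at h6 h8 ⊢
      rw [map_mul, h6, mul_one] at h8
      exact h8
  have hgk : ∀ k : ℕ, (g ^ k) ^ N = 1 := by
    intro k
    rw [← pow_mul, mul_comm, pow_mul, hg.pow_eq_one, one_pow]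
  -- the elements
  set e : ℕ × ℕ → ZMod p := fun q => g ^ q.2 * (y ^ 2) ^ q.1 with he
  have hQe : ∀ q, Q (e q) := fun q => hQmul _ _ (hres _ (hgk q.2)) (hQpow _ hx q.1)
  have hdiff1 : ∀ j j' k k' : ℕ, j' < j → j ≤ N * c → k < N → k' < N →
      Q (g ^ k * (y ^ 2) ^ j - g ^ k' * (y ^ 2) ^ j') := by
    intro j j' k k' hjj hj hk hk'
    have h1 : g ^ k * (y ^ 2) ^ j - g ^ k' * (y ^ 2) ^ j' =
        (g ^ k * (y ^ 2) ^ j') * ((y ^ 2) ^ (j - j') - g ^ (k' + (N - k))) := by
      have h2 : (y ^ 2) ^ j = (y ^ 2) ^ j' * (y ^ 2) ^ (j - j') := by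
        rw [← pow_add]
        congr 1
        omega
      have h3 : g ^ k * g ^ (k' + (N - k)) = g ^ k' := by
        rw [← pow_add, show k + (k' + (N - k)) = k' + N by omega, pow_add, hg.pow_eq_one, mul_one]
      rw [mul_sub, h2]
      have h5 : g ^ k * (y ^ 2) ^ j' * g ^ (k' + (N - k)) = g ^ k' * (y ^ 2) ^ j' := by
        rw [mul_right_comm, h3]
      rw [h5]
      ring
    rw [h1]
    exact hQmul _ _ (hQmul _ _ (hres _ (hgk k)) (hQpow _ hx j'))
      (hred (j - j') (by omega) (by omega) _)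
  have hdiff2 : ∀ j k k' : ℕ, k < N → k' < N → k ≠ k' →
      Q (g ^ k * (y ^ 2) ^ j - g ^ k' * (y ^ 2) ^ j) := by
    intro j k k' hk hk' hne
    have h1 : g ^ k * (y ^ 2) ^ j - g ^ k' * (y ^ 2) ^ j =
        (g ^ k * (y ^ 2) ^ j) * (1 - g ^ (k' + (N - k))) := by
      have h3 : g ^ k * g ^ (k' + (N - k)) = g ^ k' := by
        rw [← pow_add, show k + (k' + (N - k)) = k' + N by omega, pow_add, hg.pow_eq_one, mul_one]
      rw [mul_sub, mul_one]
      have h5 : g ^ k * (y ^ 2) ^ j * g ^ (k' + (N - k)) = g ^ k' * (y ^ 2) ^ j := by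
        rw [mul_right_comm, h3]
      rw [h5]
    rw [h1]
    refine hQmul _ _ (hQmul _ _ (hres _ (hgk k)) (hQpow _ hx j)) (hone _ (hgk _) ?_)
    intro h2
    have h3 := (hg.pow_eq_one_iff_dvd _).1 h2
    obtain ⟨m, hm⟩ := h3
    have h4 : m < 2 := by
      by_contra hcon
      have : N * 2 ≤ N * m := Nat.mul_le_mul_left _ (by omega)
      omega
    interval_cases m
    · omega
    · omega
  have hdiff : ∀ q ∈ range (N * c + 1) ×ˢ range N, ∀ q' ∈ range (N * c + 1) ×ˢ range N,
      q ≠ q' → Q (e q - e q') := by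
    rintro ⟨j, k⟩ hq ⟨j', k'⟩ hq' hne
    simp only [mem_product, mem_range] at hq hq'
    rcases lt_trichotomy j j' with hlt | heq | hlt
    · have h1 := hQneg _ (hdiff1 j' j k' k hlt (by omega) hq'.2 hq.2)
      rw [neg_sub] at h1
      exact h1
    · subst heq
      exact hdiff2 j k k' hq.2 hq'.2 (fun h => hne (by rw [h]))
    · exact hdiff1 j j' k k' hlt (by omega) hq.2 hq'.2
  have hQ0 : ¬ Q 0 := by
    simp [hQ]
  have hinj : Set.InjOn e (range (N * c + 1) ×ˢ range N : Finset (ℕ × ℕ)) := by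
    intro q hq q' hq' h
    by_contra hne
    have h1 := hdiff q (by exact_mod_cast hq) q' (by exact_mod_cast hq') hne
    rw [h, sub_self] at h1
    exact hQ0 h1
  refine ⟨insert 0 ((range (N * c + 1) ×ˢ range N).image e), ?_, ?_⟩
  · rw [Finset.card_insert_of_notMem, Finset.card_image_of_injOn hinj, Finset.card_product,
      card_range, card_range]
    · ring
    · intro h0
      rw [mem_image] at h0
      obtain ⟨q, -, hq⟩ := h0
      have := hQe q
      rw [hq] at this
      exact hQ0 this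
  · intro a ha b hb hab
    rw [paley_adj]
    rw [mem_insert, mem_image] at ha hb
    rcases ha with rfl | ⟨q, hq, rfl⟩
    · rcases hb with rfl | ⟨q', hq', rfl⟩
      · exact absurd rfl hab
      · rw [zero_sub]
        exact hQneg _ (hQe q')
    · rcases hb with rfl | ⟨q', hq', rfl⟩
      · rw [sub_zero]
        exact hQe q
      · exact hdiff q hq q' hq' (fun h => hab (by rw [h]))

end Run7.h111
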