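import Pool.Agent.Run7.h111.TCount

/-! The factorisation of `x^d - g^s` over the `N`-th roots of unity, and the independence of the
primitive ones modulo squares. -/

set_option autoImplicit false

open Finset Polynomial

namespace Run7.h111

lemma prim_pow_modEq {E : Type*} [Field E] {G : E} {N : ℕ} (hN : 0 < N) (h : IsPrimitiveRoot G N)
    {a b : ℕ} (hab : G ^ a = G ^ b) : a ≡ b [MOD N] := by
  have h1 : G ^ (a % N) = G ^ (b % N) := by
    have h2 := pow_mod_orderOf G a
    have h3 := pow_mod_orderOf G b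
    rw [← h.eq_orderOf] at h2 h3
    rw [h2, h3, hab]
  exact h.pow_inj (Nat.mod_lt _ hN) (Nat.mod_lt _ hN) h1

/-- it is enough to control the primitive pairs -/
lemma reduce_prim {F : Type*} [Field F] {g : F} {N : ℕ} (hN : 0 < N) (hg : IsPrimitiveRoot g N)
    (Q : F → Prop) (hQ1 : Q 1) (hQ : ∀ a b, Q a → Q b → Q (a * b)) (x : F) (c : ℕ)
    (h : ∀ q ∈ prim N c, Q (x ^ q.1 - g ^ q.2)) :
    ∀ d, 0 < d → d ≤ N * c → ∀ s, Q (x ^ d - g ^ s) := by
  classical
  have : NeZero N := ⟨hN.ne'⟩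
  intro d
  induction d using Nat.strong_induction_on with
  | _ d ih =>
    intro hd hdc s
    -- normalise `s`
    obtain ⟨s', hs0, hsN, hs⟩ : ∃ s', 0 < s' ∧ s' ≤ N ∧ g ^ s = g ^ s' := by
      rcases Nat.eq_zero_or_pos (s % N) with h0 | h0
      · refine ⟨N, hN, le_rfl, ?_⟩
        rw [hg.pow_eq_one]
        exact (hg.pow_eq_one_iff_dvd s).2 (Nat.dvd_of_mod_eq_zero h0)
      · refine ⟨s % N, h0, (Nat.mod_lt _ hN).le, ?_⟩
        conv_lhs => rw [← Nat.div_add_mod s N, pow_add, pow_mul, hg.pow_eq_one, one_pow, one_mul]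
    rw [hs]
    by_cases hp : (d, s') ∈ prim N c
    · exact h _ hp
    · rw [mem_prim] at hp
      have h1 : ∃ l ∈ N.primeFactors, l ∣ d ∧ l ∣ s' := by
        by_contra hcon
        apply hp
        refine ⟨⟨hd, hdc⟩, ⟨hs0, hsN⟩, ?_⟩
        intro l hl hcon2
        exact hcon ⟨l, hl, hcon2⟩
      obtain ⟨l, hl, ⟨d', rfl⟩, ⟨t, rfl⟩⟩ := h1
      have hlp := Nat.prime_of_mem_primeFactors hl
      have hlN := Nat.dvd_of_mem_primeFactors hl
      obtain ⟨M, hM⟩ := hlN
      have hζ : IsPrimitiveRoot (g ^ M) l := hg.pow hN (by rw [hM, mul_comm])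
      rw [mul_comm l d', mul_comm l t, pow_mul, pow_mul,
        hζ.pow_sub_pow_eq_prod_sub_mul (x ^ d') (g ^ t) hlp.pos]
      have hd' : 0 < d' := Nat.pos_of_ne_zero (by rintro rfl; simp at hd)
      have hlt : d' < l * d' := by
        have := hlp.two_le
        nlinarith
      refine Finset.prod_induction _ Q hQ hQ1 ?_
      intro μ hμ
      rw [Polynomial.mem_nthRootsFinset hlp.pos] at hμ
      have hμN : μ ^ N = 1 := by rw [hM, pow_mul, hμ, one_pow]
      obtain ⟨i, -, hi⟩ := hg.eq_pow_of_pow_eq_one hμN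
      rw [← hi, ← pow_add]
      exact ih d' hlt hd' (by omega) (i + t)

/-- the polynomial attached to a pair -/
noncomputable def fpol {F : Type*} [Field F] (g : F) (q : ℕ × ℕ) : F[X] :=
  X ^ (2 * q.1) - C (g ^ q.2)

lemma fpol_eval {F : Type*} [Field F] (g : F) (q : ℕ × ℕ) (y : F) :
    (fpol g q).eval y = (y ^ 2) ^ q.1 - g ^ q.2 := by
  unfold fpol
  simp [pow_mul]

lemma fpol_monic {F : Type*} [Field F] (g : F) {q : ℕ × ℕ} (hq : 0 < q.1) : (fpol g q).Monic := by
  unfold fpol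
  exact monic_X_pow_sub_C _ (by omega)

lemma fpol_natDegree {F : Type*} [Field F] (g : F) (q : ℕ × ℕ) :
    (fpol g q).natDegree = 2 * q.1 := by
  unfold fpol
  exact natDegree_X_pow_sub_C

/-- a nonempty product of distinct primitive `X^(2d) - g^s` is not a constant times a square -/
lemma prod_ne_sq {F : Type*} [Field F] (p : ℕ) [Fact p.Prime] [CharP F p] (hp2 : p ≠ 2) {g : F}
    {N c : ℕ} (hN : 0 < N) (hg : IsPrimitiveRoot g N) (hc : N * c < p)
    (T : Finset (ℕ × ℕ)) (hT : T ⊆ prim N c) (hne : T.Nonempty) :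
    ∀ (a : F) (h : F[X]), ∏ q ∈ T, fpol g q ≠ C a * h ^ 2 := by
  classical
  intro a h heq
  have : NeZero N := ⟨hN.ne'⟩
  have hpp : p.Prime := Fact.out
  obtain ⟨⟨d₀, s₀⟩, hq0, hmax⟩ := Finset.exists_max_image T (fun q => q.1) hne
  have hmem := mem_prim.1 (hT hq0)
  simp only at hmem hmax
  obtain ⟨⟨hd0, hd1⟩, ⟨hs0, hs1⟩, hprim⟩ := hmem
  let E := AlgebraicClosure F
  have : CharP E p := charP_of_injective_algebraMap (algebraMap F E).injective p
  have hcast : ∀ m : ℕ, 0 < m → (∀ _ : p ∣ m, False) → (m : E) ≠ 0 := by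
    intro m hm hnd h0
    exact hnd ((CharP.cast_eq_zero_iff E p m).1 h0)
  have hpN : ¬ p ∣ N := by
    intro hdvd
    obtain ⟨M, hM⟩ := hdvd
    have hM0 : 0 < M := Nat.pos_of_ne_zero (by rintro rfl; omega)
    have h1 : (g ^ M) ^ p = 1 := by rw [← pow_mul, mul_comm, ← hM, hg.pow_eq_one]
    have h2 : (g ^ M - 1) ^ p = 0 := by
      rw [sub_pow_char, h1, one_pow, sub_self]
    have h3 : g ^ M = 1 := sub_eq_zero.1 (pow_eq_zero_iff hpp.ne_zero |>.1 h2)
    have h4 := (hg.pow_eq_one_iff_dvd M).1 h3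
    rw [hM] at h4
    have h5 := Nat.le_of_dvd hM0 h4
    have := hpp.two_le
    nlinarith
  have hpd : ¬ p ∣ d₀ := by
    intro hdvd
    have := Nat.le_of_dvd hd0 hdvd
    omega
  have hNd : ((N * d₀ : ℕ) : E) ≠ 0 := by
    apply hcast _ (Nat.mul_pos hN hd0)
    intro hdvd
    rcases hpp.dvd_mul.1 hdvd with h1 | h1
    · exact hpN h1
    · exact hpd h1
  have : NeZero ((N * d₀ : ℕ) : E) := ⟨hNd⟩
  -- a primitive root of order `N d₀`
  obtain ⟨β, hβ⟩ : ∃ β : E, IsPrimitiveRoot β (N * d₀) := by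
    obtain ⟨β, hβ⟩ := IsAlgClosed.exists_root (cyclotomic (N * d₀) E) (by
      rw [degree_cyclotomic]
      exact_mod_cast (Nat.totient_pos.2 (Nat.mul_pos hN hd0)).ne')
    exact ⟨β, isRoot_cyclotomic_iff.1 hβ⟩
  have hγ : IsPrimitiveRoot (β ^ d₀) N := hβ.pow (Nat.mul_pos hN hd0) (mul_comm _ _)
  set G : E := algebraMap F E g with hG
  have hgE : IsPrimitiveRoot G N := hg.map_of_injective (algebraMap F E).injective
  obtain ⟨s', -, hs'⟩ := hγ.eq_pow_of_pow_eq_one (show (G ^ s₀) ^ N = 1 by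
    rw [← pow_mul, mul_comm, pow_mul, hgE.pow_eq_one, one_pow])
  -- `s'` is prime to the common primes
  have hcop : ∀ q : ℕ, q.Prime → q ∣ N → q ∣ d₀ → ¬ q ∣ s' := by
    rintro q hq hqN hqd ⟨t, rfl⟩
    have h1 : ((β ^ d₀) ^ t) ^ N = 1 := by
      rw [← pow_mul, mul_comm, pow_mul, hγ.pow_eq_one, one_pow]
    obtain ⟨i, -, hi⟩ := hgE.eq_pow_of_pow_eq_one h1
    have h2 : G ^ s₀ = G ^ (i * q) := by
      rw [← hs', pow_mul G, hi, ← pow_mul _ t q, mul_comm t q]
    have h3 : s₀ ≡ i * q [MOD N] := prim_pow_modEq hN hgE h2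
    have h4 : q ∣ s₀ := by
      have h5 : s₀ ≡ i * q [MOD q] := h3.of_dvd hqN
      have h6 : i * q ≡ 0 [MOD q] := Nat.modEq_zero_iff_dvd.2 (dvd_mul_left _ _)
      exact Nat.modEq_zero_iff_dvd.1 (h5.trans h6)
    exact hprim q (Nat.mem_primeFactors.2 ⟨hq, hqN, hN.ne'⟩) ⟨hqd, h4⟩
  obtain ⟨j, hj⟩ := exists_coprime_rep N d₀ s' hd0 hcop
  set u := s' + N * j with hu
  set α : E := β ^ u with hα
  have hαd : α ^ d₀ = G ^ s₀ := by
    rw [hα, ← pow_mul, mul_comm, pow_mul, hu, pow_add, pow_mul _ N j, hγ.pow_eq_one, one_pow,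
      mul_one, hs']
  have hβ0 : β ≠ 0 := hβ.ne_zero (Nat.mul_pos hN hd0).ne'
  have hα0 : α ≠ 0 := pow_ne_zero _ hβ0
  have hαk : ∀ k, 0 < k → k < d₀ → (α ^ k) ^ N ≠ 1 := by
    intro k hk hkd h1
    rw [hα, ← pow_mul, ← pow_mul] at h1
    have h2 := (hβ.pow_eq_one_iff_dvd _).1 h1
    rw [show u * (k * N) = N * (u * k) by ring] at h2
    have h3 := Nat.dvd_of_mul_dvd_mul_left hN h2
    have h4 := (Nat.Coprime.dvd_of_dvd_mul_left (Nat.Coprime.symm hj) h3)
    exact absurd (Nat.le_of_dvd hk h4) (by omega)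
  obtain ⟨y, hy⟩ := IsAlgClosed.exists_pow_nat_eq α (n := 2) (by norm_num)
  have hy0 : y ≠ 0 := by
    rintro rfl
    apply hα0
    rw [← hy]
    simp
  -- values of the other factors at `y`
  have hother : ∀ q ∈ T.erase (d₀, s₀), ((fpol g q).map (algebraMap F E)).eval y ≠ 0 := by
    rintro ⟨d, s⟩ hq
    rw [mem_erase] at hq
    obtain ⟨hne', hqT⟩ := hq
    have hm := mem_prim.1 (hT hqT)
    have hle := hmax _ hqT
    simp only at hm hle
    have hev : ((fpol g (d, s)).map (algebraMap F E)).eval y = α ^ d - G ^ s := by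
      unfold fpol
      simp only [Polynomial.map_sub, Polynomial.map_pow, map_X, map_C, eval_sub, eval_pow, eval_X,
        eval_C, map_pow]
      rw [pow_mul, hy]
    rw [hev]
    intro h0
    have h1 : α ^ d = G ^ s := sub_eq_zero.1 h0
    rcases lt_or_eq_of_le hle with hlt | heq'
    · apply hαk d hm.1.1 hlt
      rw [h1, ← pow_mul, mul_comm, pow_mul, hgE.pow_eq_one, one_pow]
    · subst heq'
      rw [hαd] at h1
      have h4 : s₀ % N = s % N := prim_pow_modEq hN hgE h1
      have h5 : s₀ = s := by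
        have h6 : s₀ ≡ s [MOD N] := h4
        rcases Nat.lt_or_ge s₀ N with h7 | h7
        · rcases Nat.lt_or_ge s N with h8 | h8
          · exact Nat.ModEq.eq_of_lt_of_lt h6 h7 h8
          · have h9 : s = N := le_antisymm hm.2.1.2 h8
            rw [h9] at h4
            rw [Nat.mod_self, Nat.mod_eq_of_lt h7] at h4
            omega
        · have h8 : s₀ = N := le_antisymm hs1 h7
          rcases Nat.lt_or_ge s N with h9 | h9
          · rw [h8, Nat.mod_self, Nat.mod_eq_of_lt h9] at h4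
            omega
          · omega
      exact hne' (by rw [h5])
  -- derivative argument
  have hmap : (∏ q ∈ T, fpol g q).map (algebraMap F E) =
      ((fpol g (d₀, s₀)).map (algebraMap F E)) *
        ∏ q ∈ T.erase (d₀, s₀), (fpol g q).map (algebraMap F E) := by
    rw [Polynomial.map_prod, ← Finset.mul_prod_erase T _ hq0]
  have hmap2 : (∏ q ∈ T, fpol g q).map (algebraMap F E) =
      C (algebraMap F E a) * (h.map (algebraMap F E)) ^ 2 := by
    rw [heq]
    simp
  have hev0 : ((fpol g (d₀, s₀)).map (algebraMap F E)).eval y = 0 := by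
    unfold fpol
    simp only [Polynomial.map_sub, Polynomial.map_pow, map_X, map_C, eval_sub, eval_pow, eval_X,
      eval_C, map_pow]
    rw [pow_mul, hy, hαd, sub_self]
  have hder0 : (derivative ((fpol g (d₀, s₀)).map (algebraMap F E))).eval y ≠ 0 := by
    unfold fpol
    simp only [Polynomial.map_sub, Polynomial.map_pow, map_X, map_C, derivative_sub,
      derivative_X_pow, derivative_C, sub_zero, eval_mul, eval_C, eval_pow, eval_X]
    refine mul_ne_zero ?_ (pow_ne_zero _ hy0)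
    apply hcast _ (by omega)
    intro hdvd
    rcases hpp.dvd_mul.1 hdvd with h1 | h1
    · exact hp2 ((Nat.prime_dvd_prime_iff_eq hpp Nat.prime_two).1 h1)
    · exact hpd h1
  have hR : (∏ q ∈ T.erase (d₀, s₀), (fpol g q).map (algebraMap F E)).eval y ≠ 0 := by
    rw [eval_prod]
    exact Finset.prod_ne_zero_iff.2 hother
  have hL : (derivative ((∏ q ∈ T, fpol g q).map (algebraMap F E))).eval y ≠ 0 := by
    rw [hmap, derivative_mul, eval_add, eval_mul, eval_mul, hev0, zero_mul, add_zero]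
    exact mul_ne_zero hder0 hR
  have hE0 : ((∏ q ∈ T, fpol g q).map (algebraMap F E)).eval y = 0 := by
    rw [hmap, eval_mul, hev0, zero_mul]
  apply hL
  rw [hmap2]
  rw [hmap2, eval_mul, eval_C, eval_pow] at hE0
  rw [derivative_mul, derivative_C, zero_mul, zero_add, eval_mul, eval_C, derivative_pow]
  rcases mul_eq_zero.1 hE0 with h0 | h0
  · rw [h0, zero_mul]
  · have h1 : (h.map (algebraMap F E)).eval y = 0 := by simpa using h0
    simp [h1]

end Run7.h111
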